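import Pool.Agent.Lib.MP_534936_co.Gen.Defs

/-! Basic facts on components and parts. -/

set_option autoImplicit false

namespace Pool.Agent.Lib.MP_534936_co.Gen

open Finset

variable {ι α : Type}

namespace Inst

variable {I : Inst ι α}

theorem Busy.leT (h : I.Ok) {x : ι} {g : ℕ} (hb : I.Busy x g) : g ≤ I.T := by
  obtain ⟨a, ha, _, h2⟩ := hb
  exact le_trans h2 (h.leT x a ha)

theorem H.leT (h : I.Ok) {x : ι} {g : ℕ} (hg : I.H x g) : g ≤ I.T := by
  have := h.tle x
  have := hg.2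
  omega

theorem InC.mono {x : ι} {d g g' : ℕ} (hc : I.InC x d g) (h1 : d < g') (h2 : g' ≤ g) : I.InC x d g' :=
  ⟨h1, fun k hk hk' => hc.2 k hk (le_trans hk' h2)⟩

theorem InP.mono {x : ι} {e g g' : ℕ} (hc : I.InP x e g) (h1 : e < g') (h2 : g' ≤ g) : I.InP x e g' :=
  ⟨h1, le_trans h2 hc.2.1, fun k hk hk' => hc.2.2 k hk (le_trans hk' h2)⟩

/-- an arc which meets the run `(x, d)` lies in it -/
theorem InC.arc (h : I.Ok) {x : ι} {d g : ℕ} {c : α} (hc : I.InC x d g) (hd : ¬ I.Busy x d) (hcx : c ∈ I.own x)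
    (h1 : I.lo c ≤ g) (h2 : g ≤ I.hi c) : I.InC x d (I.lo c) := by
  have hlo : d < I.lo c := by
    by_contra hcon
    exact hd ⟨c, hcx, by omega, by have := hc.1; omega⟩
  exact hc.mono hlo h1

theorem InC.extend {x : ι} {d g : ℕ} {c : α} (hcx : c ∈ I.own x) (hc : I.InC x d (I.lo c))
    (h1 : I.lo c ≤ g) (h2 : g ≤ I.hi c) : I.InC x d g := by
  refine ⟨lt_of_lt_of_le hc.1 h1, fun k hk hk' => ?_⟩
  by_cases h : k ≤ I.lo c
  · exact hc.2 k hk h
  · exact ⟨c, hcx, by omega, by omega⟩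

variable [Fintype ι]

theorem mem_Z {x : ι} : x ∈ I.Z ↔ 0 < I.t x ∧ I.t x ≤ I.T := by
  classical
  simp [Z]

theorem mem_EP {q : ι × ℕ} : q ∈ I.EP ↔ q.2 < I.T ∧ I.H q.1 q.2 ∧ ¬ I.H q.1 (q.2 + 1) := by
  classical
  simp [EP]

theorem mem_ER {q : ι × ℕ} : q ∈ I.ER ↔ q.2 < I.T ∧ ¬ I.L q.1 q.2 ∧ I.L q.1 (q.2 + 1) := by
  classical
  simp [ER]

theorem mem_AP {q : ι × ℕ} : q ∈ I.AP ↔ q ∈ I.EP ∧ (I.t q.1 = I.T + 1 ∨ ∃ g, q.2 < g ∧ I.H q.1 g) := by
  classical
  simp [AP]

theorem mem_AR {q : ι × ℕ} : q ∈ I.AR ↔ q ∈ I.ER ∧ (I.t q.1 = 0 ∨ ∃ g, g ≤ q.2 ∧ I.L q.1 g) := by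
  classical
  simp [AR]

/-- the gap after an element of `AP` is busy -/
theorem AP.busy {x : ι} {d : ℕ} (hq : (x, d) ∈ I.AP) : I.InC x d (d + 1) := by
  obtain ⟨h1, h2⟩ := mem_AP.1 hq
  obtain ⟨h3, h4, h5⟩ := mem_EP.1 h1
  simp only at h2 h3 h4 h5
  refine ⟨by omega, fun k hk hk' => ?_⟩
  obtain rfl : k = d + 1 := by omega
  by_contra hb
  apply h5
  refine ⟨hb, ?_⟩
  rcases h2 with h2 | ⟨g, h6, h7⟩
  · omega
  · have := h7.2
    omega

/-- inside a run of `AP` no gap is `L`; after it comes `T` or an `H` gap. If `(x, d)` is in `AP`, `g` in the run and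
`g + 1` is not busy then `g + 1` is `H` or `g = T`. -/
theorem AP.next (h : I.Ok) {x : ι} {d g : ℕ} (hq : (x, d) ∈ I.AP) (hg : I.InC x d g) (hb : ¬ I.Busy x (g + 1))
    (hT : g + 1 ≤ I.T) : I.H x (g + 1) := by
  obtain ⟨h1, h2⟩ := mem_AP.1 hq
  simp only at h2
  refine ⟨hb, ?_⟩
  rcases h2 with h2 | ⟨g', h6, h7⟩
  · omega
  · have : g < g' := by
      by_contra hcon
      exact h7.1 (hg.2 g' h6 (by omega))
    have := h7.2
    omega

/-- containment: a run of `L` gaps of a `D`-related row which starts inside a run of `AP` lies inside it -/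
theorem sub_of_adj (h : I.Ok) {x z : ι} {d e g : ℕ} (hq : (x, d) ∈ I.AP) (hD : I.D x z)
    (hC : I.InC x d (e + 1)) (hP : I.InP z e g) : I.InC x d g := by
  have key : ∀ n, e + 1 + n ≤ g → I.InC x d (e + 1 + n) := by
    intro n
    induction n with
    | zero => intro _; exact hC
    | succ n ih =>
      intro hn
      have h1 := ih (by omega)
      have hgT := hP.2.1
      have hb : I.Busy x (e + 1 + n + 1) := by
        by_contra hb
        have hH := AP.next h hq h1 hb (by omega)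
        exact h.star x z hD _ (by omega) hH (hP.2.2 _ (by omega) (by omega))
      refine ⟨by have := h1.1; omega, fun k hk hk' => ?_⟩
      by_cases hk2 : k ≤ e + 1 + n
      · exact h1.2 k hk hk2
      · obtain rfl : k = e + 1 + n + 1 := by omega
        exact hb
  have h0 := hP.1
  have := key (g - (e + 1)) (by omega)
  rwa [show e + 1 + (g - (e + 1)) = g by omega] at this

/-- every `L` gap of a row with `0 < t` lies in exactly one run; for a row with `t = 0` it may lie in the run starting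
at gap `0` (then all gaps before are `L`) -/
theorem exists_run {z : ι} {g : ℕ} (hg : g ≤ I.T) (hL : I.L z g) :
    (∃ e, (z, e) ∈ I.ER ∧ I.InP z e g) ∨ (∀ k, k ≤ g → I.L z k) := by
  induction g with
  | zero =>
    right
    intro k hk
    obtain rfl : k = 0 := by omega
    exact hL
  | succ g ih =>
    by_cases hLg : I.L z g
    · rcases ih (by omega) hLg with ⟨e, he, hP⟩ | hall
      · left
        refine ⟨e, he, by have := hP.1; omega, hg, fun k hk hk' => ?_⟩
        by_cases hk2 : k ≤ g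
        · exact hP.2.2 k hk hk2
        · obtain rfl : k = g + 1 := by omega
          exact hL
      · right
        intro k hk
        by_cases hk2 : k ≤ g
        · exact hall k hk2
        · obtain rfl : k = g + 1 := by omega
          exact hL
    · left
      refine ⟨g, mem_ER.2 ⟨by simp only; omega, hLg, hL⟩, by omega, hg, fun k hk hk' => ?_⟩
      obtain rfl : k = g + 1 := by omega
      exact hL

/-- the start of a run is unique -/
theorem run_unique {z : ι} {e e' g : ℕ} (h1 : (z, e) ∈ I.ER) (h2 : (z, e') ∈ I.ER)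
    (h3 : I.InP z e g) (h4 : I.InP z e' g) : e = e' := by
  have h1' := (mem_ER.1 h1).2.1
  have h2' := (mem_ER.1 h2).2.1
  simp only at h1' h2'
  rcases lt_trichotomy e e' with hlt | heq | hlt
  · exact absurd (h3.2.2 e' hlt (le_of_lt h4.1)) h2'
  · exact heq
  · exact absurd (h4.2.2 e hlt (le_of_lt h3.1)) h1'

theorem comp_unique {x : ι} {d d' g : ℕ} (h1 : ¬ I.Busy x d) (h2 : ¬ I.Busy x d')
    (h3 : I.InC x d g) (h4 : I.InC x d' g) : d = d' := by
  rcases lt_trichotomy d d' with hlt | heq | hlt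
  · exact absurd (h3.2 d' hlt (le_of_lt h4.1)) h2
  · exact heq
  · exact absurd (h4.2 d hlt (le_of_lt h3.1)) h1

/-- `|ER| ≤ |AR| + |Z|` -/
theorem card_ER (h : I.Ok) : I.ER.card ≤ I.AR.card + I.Z.card := by
  classical
  have h0 : I.ER.card ≤ I.AR.card + (I.ER \ I.AR).card := by
    calc I.ER.card ≤ (I.AR ∪ (I.ER \ I.AR)).card := by
          apply card_le_card
          intro q hq
          by_cases hq2 : q ∈ I.AR
          · exact mem_union_left _ hq2
          · exact mem_union_right _ (mem_sdiff.2 ⟨hq, hq2⟩)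
      _ ≤ _ := card_union_le _ _
  have h1 : (I.ER \ I.AR).card ≤ I.Z.card := by
    apply card_le_card_of_injOn Prod.fst
    · intro q hq
      have hq := mem_sdiff.1 (mem_coe.1 hq)
      have hE := mem_ER.1 hq.1
      have hA : ¬ (I.t q.1 = 0 ∨ ∃ g, g ≤ q.2 ∧ I.L q.1 g) := fun hc => hq.2 (mem_AR.2 ⟨hq.1, hc⟩)
      rw [not_or] at hA
      apply mem_coe.2
      apply mem_Z.2
      have h2 := hE.2.2.2
      refine ⟨by omega, by omega⟩
    · rintro ⟨z, e⟩ hq ⟨z', e'⟩ hq' heq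
      simp only at heq
      subst heq
      have hq := mem_sdiff.1 (mem_coe.1 hq)
      have hq' := mem_sdiff.1 (mem_coe.1 hq')
      have hE := mem_ER.1 hq.1
      have hE' := mem_ER.1 hq'.1
      simp only at hE hE'
      have hlt : ¬ e < e' := by
        intro hlt
        exact hq'.2 (mem_AR.2 ⟨hq'.1, Or.inr ⟨e + 1, by simp only; omega, hE.2.2⟩⟩)
      have hlt' : ¬ e' < e := by
        intro hlt
        exact hq.2 (mem_AR.2 ⟨hq.1, Or.inr ⟨e' + 1, by simp only; omega, hE'.2.2⟩⟩)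
      have : e = e' := by omega
      rw [this]
  omega

/-- the run of `L` gaps starting at `e + 1` ends before `T` and is followed by a busy gap -/
theorem run_end (h : I.Ok) {z : ι} {e : ℕ} (hz : (z, e) ∈ I.ER) :
    ∃ w, I.InP z e w ∧ I.Busy z (w + 1) := by
  classical
  obtain ⟨h1, h2, h3⟩ := mem_ER.1 hz
  simp only at h1 h2 h3
  have ht : I.t z ≤ I.T := by have := h3.2; omega
  obtain ⟨hr1, hr2⟩ := h.hr z ht
  have hbT : I.Busy z I.T := ⟨I.r z, hr1, by have := h.le z _ hr1; omega, by omega⟩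
  have hex : ∃ k, e < k ∧ I.Busy z k := ⟨I.T, h1, hbT⟩
  obtain ⟨hk1, hk2⟩ := Nat.find_spec hex
  have hkT : Nat.find hex ≤ I.T := Nat.find_min' hex ⟨h1, hbT⟩
  have hmin : ∀ m, m < Nat.find hex → e < m → ¬ I.Busy z m := fun m hm he hb => Nat.find_min hex hm ⟨he, hb⟩
  have hne : Nat.find hex ≠ e + 1 := by
    intro hc
    rw [hc] at hk2
    exact h3.1 hk2
  refine ⟨Nat.find hex - 1, ⟨by omega, by omega, fun k hk hk' => ⟨hmin k (by omega) hk, ?_⟩⟩, ?_⟩
  · have := h3.2
    omega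
  · rwa [show Nat.find hex - 1 + 1 = Nat.find hex by omega]

/-- the run of `AP` as an interval -/
theorem comp_Icc (h : I.Ok) {x : ι} {d : ℕ} (hq : (x, d) ∈ I.AP) :
    ∃ m, ∀ g, I.InC x d g ↔ d + 1 ≤ g ∧ g ≤ m := by
  classical
  have hex : ∃ k, d < k ∧ ¬ I.Busy x k := by
    refine ⟨max (d + 1) (I.T + 1), by omega, fun hb => ?_⟩
    have := Busy.leT h hb
    omega
  obtain ⟨hk1, hk2⟩ := Nat.find_spec hex
  have hmin : ∀ m, m < Nat.find hex → d < m → I.Busy x m := fun m hm he => by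
    by_contra hb
    exact Nat.find_min hex hm ⟨he, hb⟩
  refine ⟨Nat.find hex - 1, fun g => ⟨fun hg => ⟨hg.1, ?_⟩, fun hg => ⟨by omega, fun k hk hk' => hmin k (by omega) hk⟩⟩⟩
  by_contra hc
  exact hk2 (hg.2 _ hk1 (by omega))

end Inst

end Pool.Agent.Lib.MP_534936_co.Gen
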