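import Mathlib

/-!
# Linking in systems of rows of intervals: definitions

A row is a finite set of arcs; an arc crosses the gaps from `lo a` to `hi a`. Every row `x` has a threshold `t x`: idle
gaps before `t x` are called `H`, idle gaps from `t x` on are called `L`. `t x = T + 1` is a row of type P (root `p x`,
an arc crossing gap `0`), `t x = 0` is a row of type R (root `r x`, an arc crossing gap `T`), all other rows have both
roots.
-/

set_option autoImplicit false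

namespace Pool.Agent.Lib.MP_534936_co.Gen

open Finset

variable {ι α : Type}

structure Inst (ι α : Type) where
  T : ℕ
  lo : α → ℕ
  hi : α → ℕ
  D : ι → ι → Prop
  p : ι → α
  r : ι → α
  own : ι → Finset α
  t : ι → ℕ

namespace Inst

variable (I : Inst ι α)

/-- some arc of row `x` crosses gap `g` -/
def Busy (x : ι) (g : ℕ) : Prop := ∃ a ∈ I.own x, I.lo a ≤ g ∧ g ≤ I.hi a

def H (x : ι) (g : ℕ) : Prop := ¬ I.Busy x g ∧ g < I.t x

def L (x : ι) (g : ℕ) : Prop := ¬ I.Busy x g ∧ I.t x ≤ g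

/-- `I` is a system -/
structure Ok (I : Inst ι α) : Prop where
  le : ∀ x, ∀ a ∈ I.own x, I.lo a ≤ I.hi a
  leT : ∀ x, ∀ a ∈ I.own x, I.hi a ≤ I.T
  disj : ∀ x y a, a ∈ I.own x → a ∈ I.own y → x = y
  tle : ∀ x, I.t x ≤ I.T + 1
  hp : ∀ x, 0 < I.t x → I.p x ∈ I.own x ∧ I.lo (I.p x) = 0
  hr : ∀ x, I.t x ≤ I.T → I.r x ∈ I.own x ∧ I.hi (I.r x) = I.T
  star : ∀ x z, I.D x z → ∀ g, g ≤ I.T → I.H x g → I.L z g → False

/-- the sets we want: `side x = true` is a set containing the root at gap `0`, `side x = false` one containing the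
root at gap `T`. -/
def Sol (I : Inst ι α) : Prop :=
  ∃ (S : ι → Finset α) (side : ι → Bool),
    (∀ x, ∀ a ∈ S x, ∃ y, a ∈ I.own y) ∧
    (∀ x y a, a ∈ S x → a ∈ S y → x = y) ∧
    (∀ x, side x = true → 0 < I.t x ∧ I.p x ∈ S x ∧
      ∀ a ∈ S x, ∀ g, g ≤ I.hi a → ∃ b ∈ S x, I.lo b ≤ g ∧ g ≤ I.hi b) ∧
    (∀ x, side x = false → I.t x ≤ I.T ∧ I.r x ∈ S x ∧
      ∀ a ∈ S x, ∀ g, I.lo a ≤ g → g ≤ I.T → ∃ b ∈ S x, I.lo b ≤ g ∧ g ≤ I.hi b) ∧
    (∀ x z, I.D x z → side x = true → side z = false → ∀ g, g ≤ I.T →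
      (∃ b ∈ S x, I.lo b ≤ g ∧ g ≤ I.hi b) ∨ (∃ b ∈ S z, I.lo b ≤ g ∧ g ≤ I.hi b))

/-- gap `g` lies in the busy run of row `x` which starts at gap `d + 1` (when `d` is idle) -/
def InC (x : ι) (d g : ℕ) : Prop := d < g ∧ ∀ k, d < k → k ≤ g → I.Busy x k

/-- gap `g` lies in the run of `L` gaps of row `x` which starts at gap `e + 1` (when `e` is not `L`) -/
def InP (x : ι) (e g : ℕ) : Prop := e < g ∧ g ≤ I.T ∧ ∀ k, e < k → k ≤ g → I.L x k

section fin

open Classical

variable [Fintype ι]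

/-- rows with both roots -/
noncomputable def Z : Finset ι := univ.filter (fun x => 0 < I.t x ∧ I.t x ≤ I.T)

/-- ends of runs of `H` gaps -/
noncomputable def EP : Finset (ι × ℕ) :=
  (univ ×ˢ range I.T).filter (fun q => I.H q.1 q.2 ∧ ¬ I.H q.1 (q.2 + 1))

/-- `(x, e)` such that a run of `L` gaps of row `x` starts at gap `e + 1` -/
noncomputable def ER : Finset (ι × ℕ) :=
  (univ ×ˢ range I.T).filter (fun q => ¬ I.L q.1 q.2 ∧ I.L q.1 (q.2 + 1))

/-- components of type P: `(x, d)` stands for the busy run of row `x` starting at gap `d + 1` -/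
noncomputable def AP : Finset (ι × ℕ) :=
  I.EP.filter (fun q => I.t q.1 = I.T + 1 ∨ ∃ g, q.2 < g ∧ I.H q.1 g)

noncomputable def AR : Finset (ι × ℕ) :=
  I.ER.filter (fun q => I.t q.1 = 0 ∨ ∃ g, g ≤ q.2 ∧ I.L q.1 g)

/-- the busy gaps of row `x` -/
noncomputable def B (x : ι) : Finset ℕ := (range (I.T + 1)).filter (fun g => I.Busy x g)

end fin

/-- filler `f` can fill the part `q` of row `q.1` -/
def Adj (f : (ι × ℕ) ⊕ ι) (q : ι × ℕ) : Prop :=
  match f with
  | Sum.inl a => I.D a.1 q.1 ∧ I.InC a.1 a.2 (q.2 + 1)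
  | Sum.inr z => ∀ g, I.H z g → g ≤ q.2

/-- the arcs of filler `f` (without fillers of its own parts) -/
def Carries (f : (ι × ℕ) ⊕ ι) (c : α) : Prop :=
  match f with
  | Sum.inl a => c ∈ I.own a.1 ∧ I.InC a.1 a.2 (I.lo c)
  | Sum.inr z => c ∈ I.own z ∧ ∀ g, I.H z g → g < I.lo c

end Inst

/-- number of runs of a finite set of natural numbers -/
def runs (X : Finset ℕ) : ℕ := (X.filter (fun g => g = 0 ∨ g - 1 ∉ X)).card

/-- total number of components -/
noncomputable def Inst.comps [Fintype ι] (I : Inst ι α) : ℕ := ∑ x, runs (I.B x)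

end Pool.Agent.Lib.MP_534936_co.Gen
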