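import Pool.Agent.Lib.MP_534936_co.Gen.Basic

/-! The final case: no parts, no components of type P, no rows with both roots. -/

set_option autoImplicit false

namespace Pool.Agent.Lib.MP_534936_co.Gen

open Finset

variable {ι α : Type} [Fintype ι]

theorem Inst.sol_of_final (I : Inst ι α) (h : I.Ok) (h1 : I.ER = ∅) (h2 : I.AP = ∅) (h3 : I.Z = ∅) : I.Sol := by
  have hER : ∀ x e, e < I.T → ¬ I.L x e → ¬ I.L x (e + 1) := by
    intro x e he hl hl'
    have hm : (x, e) ∈ I.ER := Inst.mem_ER.2 ⟨he, hl, hl'⟩
    rw [h1] at hm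
    simp at hm
  have hEP : ∀ x d, I.t x = I.T + 1 → d < I.T → I.H x d → I.H x (d + 1) := by
    intro x d ht hd hl
    by_contra hcon
    have hm : (x, d) ∈ I.AP := Inst.mem_AP.2 ⟨Inst.mem_EP.2 ⟨hd, hl, hcon⟩, Or.inl ht⟩
    rw [h2] at hm
    simp at hm
  have hZ : ∀ x, I.t x = I.T + 1 ∨ I.t x = 0 := by
    intro x
    by_contra hcon
    have hle := h.tle x
    have hm : x ∈ I.Z := Inst.mem_Z.2 ⟨by omega, by omega⟩
    rw [h3] at hm
    simp at hm
  refine ⟨I.own, fun x => decide (I.t x = I.T + 1), fun x a ha => ⟨x, ha⟩, h.disj, ?_, ?_, ?_⟩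
  · intro x hx
    have ht : I.t x = I.T + 1 := of_decide_eq_true hx
    have h0 : 0 < I.t x := by omega
    refine ⟨h0, (h.hp x h0).1, ?_⟩
    intro a ha g hg
    by_contra hcon
    have hb : ¬ I.Busy x g := hcon
    have hT := h.leT x a ha
    have key : ∀ k, g + k ≤ I.hi a → I.H x (g + k) := by
      intro k
      induction k with
      | zero =>
        intro hk
        exact ⟨hb, by omega⟩
      | succ k ih =>
        intro hk
        exact hEP x (g + k) ht (by omega) (ih (by omega))
    have h4 := key (I.hi a - g) (by omega)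
    rw [show g + (I.hi a - g) = I.hi a by omega] at h4
    exact h4.1 ⟨a, ha, h.le x a ha, le_refl _⟩
  · intro x hx
    have ht' : I.t x ≠ I.T + 1 := of_decide_eq_false hx
    have ht : I.t x = 0 := by
      rcases hZ x with h4 | h4
      · exact absurd h4 ht'
      · exact h4
    refine ⟨by omega, (h.hr x (by omega)).1, ?_⟩
    intro a ha g hg hgT
    have key : ∀ k, I.lo a + k ≤ I.T → ¬ I.L x (I.lo a + k) := by
      intro k
      induction k with
      | zero =>
        intro hk hl
        exact hl.1 ⟨a, ha, by omega, h.le x a ha⟩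
      | succ k ih =>
        intro hk
        exact hER x (I.lo a + k) (by omega) (ih (by omega))
    have h4 := key (g - I.lo a) (by omega)
    rw [show I.lo a + (g - I.lo a) = g by omega] at h4
    by_contra hcon
    exact h4 ⟨hcon, by omega⟩
  · intro x z hD hx hz g hg
    have ht : I.t x = I.T + 1 := of_decide_eq_true hx
    have ht' : I.t z ≠ I.T + 1 := of_decide_eq_false hz
    have ht0 : I.t z = 0 := by
      rcases hZ z with h4 | h4
      · exact absurd h4 ht'
      · exact h4
    by_contra hcon
    rw [not_or] at hcon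
    exact h.star x z hD g hg ⟨hcon.1, by omega⟩ ⟨hcon.2, by omega⟩

end Pool.Agent.Lib.MP_534936_co.Gen
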