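import Pool.Agent.Lib.MP_534936_co.Gen.Defs

/-! Hall's theorem with a set of maximal deficiency. -/

set_option autoImplicit false

namespace Pool.Agent.Lib.MP_534936_co.Gen

open Finset

/-- `U` finite, `N` neighbourhoods. There is `S ⊆ U`, empty or with fewer neighbours than elements, such that `U \ S`
injects into the neighbours which are not neighbours of `S`. The injection is given as a relation `R`. -/
theorem hall_rel {X Y : Type} (U : Finset X) (N : X → Finset Y) :
    ∃ (S : Finset X) (R : X → Y → Prop), S ⊆ U ∧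
      (S = ∅ ∨ ∃ W : Finset Y, (∀ y, y ∈ W ↔ ∃ q ∈ S, y ∈ N q) ∧ W.card < S.card) ∧
      (∀ q, q ∈ U → q ∉ S → ∃ f, R q f) ∧
      (∀ q f, R q f → q ∈ U ∧ q ∉ S ∧ f ∈ N q ∧ ∀ q' ∈ S, f ∉ N q') ∧
      (∀ q f f', R q f → R q f' → f = f') ∧
      (∀ q q' f, R q f → R q' f → q = q') := by
  classical
  -- the deficiency
  let d : Finset X → ℤ := fun S => (S.card : ℤ) - ((S.biUnion N).card : ℤ)
  obtain ⟨S0, hS0, hmax0⟩ := Finset.exists_max_image U.powerset d ⟨∅, Finset.empty_mem_powerset U⟩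
  have hd0 : d ∅ = 0 := by simp [d]
  -- a maximal set which is empty or has positive deficiency
  obtain ⟨S, hSU, hmax, hS⟩ : ∃ S : Finset X, S ⊆ U ∧ (∀ S', S' ⊆ U → d S' ≤ d S) ∧ (S = ∅ ∨ 0 < d S) := by
    by_cases h : 0 < d S0
    · exact ⟨S0, Finset.mem_powerset.1 hS0, fun S' h' => hmax0 S' (Finset.mem_powerset.2 h'), Or.inr h⟩
    · refine ⟨∅, Finset.empty_subset U, fun S' h' => ?_, Or.inl rfl⟩
      have := hmax0 S' (Finset.mem_powerset.2 h')
      rw [hd0]; omega
  -- Hall on `U \ S`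
  let t : {q // q ∈ U ∧ q ∉ S} → Finset Y := fun q => N q.1 \ S.biUnion N
  have hHall : ∀ s : Finset {q // q ∈ U ∧ q ∉ S}, s.card ≤ (s.biUnion t).card := by
    intro s
    let A : Finset X := s.map ⟨Subtype.val, Subtype.val_injective⟩
    have hA : A.card = s.card := Finset.card_map _
    have hAU : A ⊆ U := by
      intro a ha
      obtain ⟨q, _, rfl⟩ := Finset.mem_map.1 ha
      exact q.2.1
    have hAS : Disjoint S A := by
      rw [Finset.disjoint_left]
      intro a haS ha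
      obtain ⟨q, _, rfl⟩ := Finset.mem_map.1 ha
      exact q.2.2 haS
    have h1 := hmax (S ∪ A) (Finset.union_subset hSU hAU)
    have h2 : (S ∪ A).card = S.card + A.card := Finset.card_union_of_disjoint hAS
    have h3 : (S ∪ A).biUnion N = S.biUnion N ∪ s.biUnion t := by
      ext y
      simp only [Finset.mem_biUnion, Finset.mem_union, Finset.mem_map, Function.Embedding.coeFn_mk, A, t,
        Finset.mem_sdiff]
      constructor
      · rintro ⟨q, hq | ⟨q', hq', rfl⟩, hy⟩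
        · exact Or.inl ⟨q, hq, hy⟩
        · by_cases h : ∃ a ∈ S, y ∈ N a
          · exact Or.inl h
          · exact Or.inr ⟨q', hq', hy, h⟩
      · rintro (⟨q, hq, hy⟩ | ⟨q', hq', hy, _⟩)
        · exact ⟨q, Or.inl hq, hy⟩
        · exact ⟨q'.1, Or.inr ⟨q', hq', rfl⟩, hy⟩
    have h4 : Disjoint (S.biUnion N) (s.biUnion t) := by
      rw [Finset.disjoint_left]
      intro y hy hy'
      obtain ⟨q, _, hq⟩ := Finset.mem_biUnion.1 hy'
      exact (Finset.mem_sdiff.1 hq).2 hy
    have h5 : ((S ∪ A).biUnion N).card = (S.biUnion N).card + (s.biUnion t).card := by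
      rw [h3]; exact Finset.card_union_of_disjoint h4
    simp only [d] at h1
    rw [h5, h2, hA] at h1
    push_cast at h1
    omega
  obtain ⟨F, hFinj, hF⟩ := (Finset.all_card_le_biUnion_card_iff_exists_injective t).1 hHall
  refine ⟨S, fun q f => ∃ h : q ∈ U ∧ q ∉ S, F ⟨q, h⟩ = f, hSU, ?_, ?_, ?_, ?_, ?_⟩
  · rcases hS with h | h
    · exact Or.inl h
    · refine Or.inr ⟨S.biUnion N, fun y => Finset.mem_biUnion, ?_⟩
      simp only [d] at h
      omega
  · intro q hU hq
    exact ⟨_, ⟨hU, hq⟩, rfl⟩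
  · rintro q f ⟨h, rfl⟩
    have h' := Finset.mem_sdiff.1 (hF ⟨q, h⟩)
    exact ⟨h.1, h.2, h'.1, fun q' hq' hf => h'.2 (Finset.mem_biUnion.2 ⟨q', hq', hf⟩)⟩
  · rintro q f f' ⟨h, rfl⟩ ⟨h', rfl⟩
    rfl
  · rintro q q' f ⟨h, rfl⟩ ⟨h', h2⟩
    exact (congrArg Subtype.val (hFinj h2)).symm

end Pool.Agent.Lib.MP_534936_co.Gen
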