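import Pool.Agent.Lib.MP_534936_co.Gen.PStep

/-! The linking theorem. -/

set_option autoImplicit false

namespace Pool.Agent.Lib.MP_534936_co.Gen

open Finset

variable {ι α : Type} [Fintype ι]

private theorem sol_of_ok_aux : ∀ n m : ℕ, ∀ I : Inst ι α, I.Ok → I.Z.card = n → I.comps = m → I.Sol := by
  intro n
  induction n using Nat.strong_induction_on with
  | _ n ihn =>
    intro m
    induction m using Nat.strong_induction_on with
    | _ m ihm =>
      intro I h hn hm
      have red : ∀ J : Inst ι α, J.Ok →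
          (J.Z.card < I.Z.card ∨ (J.Z.card = I.Z.card ∧ J.comps < I.comps)) → J.Sol := by
        intro J hJ hlt
        rcases hlt with hlt | ⟨he, hlt⟩
        · exact ihn J.Z.card (by omega) J.comps J hJ rfl rfl
        · exact ihm J.comps (by omega) J hJ (by omega) rfl
      by_cases h1 : ∃ z ∈ I.Z, ∀ g, ¬ I.H z g
      · obtain ⟨z, hz, hzn⟩ := h1
        obtain ⟨J, hJ, hJs, hJc⟩ := I.normH h z hz hzn
        exact hJs (red J hJ (Or.inl hJc))
      have h1' : ∀ z ∈ I.Z, ∃ g, I.H z g := by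
        intro z hz
        by_contra hcon
        exact h1 ⟨z, hz, fun g hg => hcon ⟨g, hg⟩⟩
      rcases I.pstep h h1' with hs | ⟨J, hJ, hJs, hJc⟩ | hlt
      · exact hs
      · exact hJs (red J hJ hJc)
      have hmo := Inst.mir_ok h
      have hmZ := Inst.mir_Z h
      have hmc := Inst.mir_comps h
      by_cases h2 : ∃ z ∈ I.mir.Z, ∀ g, ¬ I.mir.H z g
      · obtain ⟨z, hz, hzn⟩ := h2
        obtain ⟨J, hJ, hJs, hJc⟩ := I.mir.normH hmo z hz hzn
        rw [hmZ] at hJc
        exact Inst.mir_sol h (hJs (red J hJ (Or.inl hJc)))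
      have h2' : ∀ z ∈ I.mir.Z, ∃ g, I.mir.H z g := by
        intro z hz
        by_contra hcon
        exact h2 ⟨z, hz, fun g hg => hcon ⟨g, hg⟩⟩
      rcases I.mir.pstep hmo h2' with hs | ⟨J, hJ, hJs, hJc⟩ | hlt'
      · exact Inst.mir_sol h hs
      · rw [hmZ, hmc] at hJc
        exact Inst.mir_sol h (hJs (red J hJ hJc))
      · rw [Inst.mir_AP h, Inst.mir_AR h] at hlt'
        omega

theorem Inst.sol_of_ok (I : Inst ι α) (h : I.Ok) : I.Sol :=
  sol_of_ok_aux I.Z.card I.comps I h rfl rfl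

end Pool.Agent.Lib.MP_534936_co.Gen
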