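import Pool.Agent.Lib.MP_534936_co.Gen.Defs

/-! Runs of finite sets of natural numbers. -/

set_option autoImplicit false

namespace Pool.Agent.Lib.MP_534936_co.Gen

open Finset

private theorem runs_aux_mem (X : Finset ℕ) (g : ℕ) :
    g ∈ X.filter (fun g => g = 0 ∨ g - 1 ∉ X) ↔ g ∈ X ∧ (g = 0 ∨ g - 1 ∉ X) := by
  rw [mem_filter]

/-- adding an interval which is followed by an element of `X` (after one of its elements) creates no new run -/
theorem runs_union_Icc (X : Finset ℕ) (a b : ℕ) (h : ∃ w, a ≤ w ∧ w ≤ b ∧ w + 1 ∈ X) :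
    runs (X ∪ Icc a b) ≤ runs X := by
  obtain ⟨w, haw, hwb, hwX⟩ := h
  unfold runs
  set SU := (X ∪ Icc a b).filter (fun g => g = 0 ∨ g - 1 ∉ X ∪ Icc a b) with hSU
  set SX := X.filter (fun g => g = 0 ∨ g - 1 ∉ X) with hSX
  -- starts of the union other than `a` are starts of `X` outside the interval
  have key : ∀ g ∈ SU, g ≠ a → g ∈ SX ∧ ¬ (a ≤ g ∧ g ≤ b) := by
    intro g hg hga
    rw [hSU, runs_aux_mem] at hg
    obtain ⟨hgU, hst⟩ := hg
    have hni : ¬ (a ≤ g ∧ g ≤ b) := by
      rintro ⟨h1, h2⟩
      rcases hst with h0 | h0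
      · omega
      · apply h0
        rw [mem_union, mem_Icc]
        right
        omega
    have hgX : g ∈ X := by
      rw [mem_union, mem_Icc] at hgU
      rcases hgU with h1 | h1
      · exact h1
      · exact absurd h1 hni
    refine ⟨?_, hni⟩
    rw [hSX, runs_aux_mem]
    refine ⟨hgX, ?_⟩
    rcases hst with h0 | h0
    · exact Or.inl h0
    · right
      intro h1
      exact h0 (mem_union_left _ h1)
  by_cases ha : a ∈ SU
  · -- the least element of `X` from `a` on
    have hne : (X.filter (fun x => a ≤ x)).Nonempty := ⟨w + 1, by rw [mem_filter]; exact ⟨hwX, by omega⟩⟩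
    set v := (X.filter (fun x => a ≤ x)).min' hne with hv
    have hvm : v ∈ X.filter (fun x => a ≤ x) := min'_mem _ hne
    rw [mem_filter] at hvm
    have hvw : v ≤ w + 1 := min'_le _ _ (by rw [mem_filter]; exact ⟨hwX, by omega⟩)
    have hva : a = 0 ∨ a - 1 ∉ X := by
      rw [hSU, runs_aux_mem] at ha
      rcases ha.2 with h0 | h0
      · exact Or.inl h0
      · right
        intro h1
        exact h0 (mem_union_left _ h1)
    have hvS : v ∈ SX := by
      rw [hSX, runs_aux_mem]
      refine ⟨hvm.1, ?_⟩
      by_cases hv0 : v = 0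
      · exact Or.inl hv0
      · right
        intro h1
        by_cases h2 : a ≤ v - 1
        · have h3 : v ≤ v - 1 := min'_le _ _ (by rw [mem_filter]; exact ⟨h1, h2⟩)
          omega
        · have h3 : v = a := by omega
          rcases hva with h4 | h4
          · omega
          · exact h4 (by rw [← h3]; exact h1)
    have hsub : SU.erase a ⊆ SX.erase v := by
      intro g hg
      rw [mem_erase] at hg
      obtain ⟨h1, h2⟩ := key g hg.2 hg.1
      rw [mem_erase]
      refine ⟨?_, h1⟩
      intro hgv
      have hvb : v = b + 1 := by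
        have := hvm.2
        rw [hgv] at h2
        omega
      -- then `g = b + 1` is preceded by `b`
      have hgS := hg.2
      rw [hSU, runs_aux_mem] at hgS
      rcases hgS.2 with h3 | h3
      · omega
      · apply h3
        rw [mem_union, mem_Icc]
        right
        omega
    have h1 := card_le_card hsub
    rw [card_erase_of_mem ha, card_erase_of_mem hvS] at h1
    have h2 : 0 < SX.card := card_pos.mpr ⟨v, hvS⟩
    omega
  · apply card_le_card
    intro g hg
    exact (key g hg (fun h => ha (h ▸ hg))).1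

/-- the same for finitely many intervals -/
theorem runs_biUnion_Icc {κ : Type} [DecidableEq κ] (X : Finset ℕ) (K : Finset κ) (a b : κ → ℕ)
    (h : ∀ k ∈ K, ∃ w, a k ≤ w ∧ w ≤ b k ∧ w + 1 ∈ X) :
    runs (X ∪ K.biUnion (fun k => Icc (a k) (b k))) ≤ runs X := by
  induction K using Finset.induction_on with
  | empty => simp
  | insert k K hk ih =>
    have h1 : X ∪ (insert k K).biUnion (fun k => Icc (a k) (b k))
        = (X ∪ K.biUnion (fun k => Icc (a k) (b k))) ∪ Icc (a k) (b k) := by
      rw [biUnion_insert]
      ext g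
      simp only [mem_union]
      tauto
    rw [h1]
    refine le_trans (runs_union_Icc _ _ _ ?_) (ih (fun j hj => h j (mem_insert_of_mem hj)))
    obtain ⟨w, h2, h3, h4⟩ := h k (mem_insert_self _ _)
    exact ⟨w, h2, h3, mem_union_left _ h4⟩

/-- removing whole runs: `K` is a set of numbers `d` with `d ∉ X`, `d + 1 ∈ X`; `C d` is the run starting at `d + 1`. -/
theorem runs_sdiff (X K : Finset ℕ) (hK : ∀ d ∈ K, d ∉ X ∧ d + 1 ∈ X) (Y : Finset ℕ)
    (hY : ∀ g, g ∈ Y ↔ g ∈ X ∧ ¬ ∃ d ∈ K, d < g ∧ ∀ k, d < k → k ≤ g → k ∈ X) :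
    runs Y + K.card ≤ runs X := by
  unfold runs
  have hinj : Function.Injective (fun d : ℕ => d + 1) := fun x y h => by simpa using h
  rw [← card_image_of_injective K hinj]
  rw [← card_union_of_disjoint]
  · apply card_le_card
    intro g hg
    rw [mem_union] at hg
    rw [runs_aux_mem]
    rcases hg with hg | hg
    · rw [runs_aux_mem] at hg
      obtain ⟨hgY, hst⟩ := hg
      have hg2 := (hY g).mp hgY
      refine ⟨hg2.1, ?_⟩
      rcases hst with h0 | h0
      · exact Or.inl h0
      · by_cases hg0 : g = 0
        · exact Or.inl hg0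
        · right
          intro h1
          apply h0
          rw [hY]
          refine ⟨h1, ?_⟩
          rintro ⟨d, hd, hdg, hall⟩
          apply hg2.2
          refine ⟨d, hd, by omega, ?_⟩
          intro k hk1 hk2
          by_cases hkg : k = g
          · rw [hkg]; exact hg2.1
          · exact hall k hk1 (by omega)
    · rw [mem_image] at hg
      obtain ⟨d, hd, rfl⟩ := hg
      refine ⟨(hK d hd).2, Or.inr ?_⟩
      simpa using (hK d hd).1
  · rw [disjoint_left]
    intro g hg hg2
    rw [mem_image] at hg2
    obtain ⟨d, hd, rfl⟩ := hg2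
    rw [runs_aux_mem] at hg
    have h1 := (hY (d + 1)).mp hg.1
    apply h1.2
    refine ⟨d, hd, by omega, ?_⟩
    intro k hk1 hk2
    have : k = d + 1 := by omega
    rw [this]
    exact (hK d hd).2

private theorem runs_eq_ends (X : Finset ℕ) : runs X = (X.filter (fun g => g + 1 ∉ X)).card := by
  unfold runs
  have h1 : (X.filter (fun g => g = 0 ∨ g - 1 ∉ X)).card + (X.filter (fun g => ¬ (g = 0 ∨ g - 1 ∉ X))).card
      = X.card := card_filter_add_card_filter_not _
  have h2 : (X.filter (fun g => g + 1 ∉ X)).card + (X.filter (fun g => ¬ (g + 1 ∉ X))).card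
      = X.card := card_filter_add_card_filter_not _
  have h3 : (X.filter (fun g => ¬ (g = 0 ∨ g - 1 ∉ X))).card = (X.filter (fun g => ¬ (g + 1 ∉ X))).card := by
    refine card_bij' (fun g _ => g - 1) (fun g _ => g + 1) ?_ ?_ ?_ ?_
    · intro g hg
      rw [mem_filter] at hg ⊢
      push Not at hg ⊢
      refine ⟨hg.2.2, ?_⟩
      have : g - 1 + 1 = g := by have := hg.2.1; omega
      rw [this]; exact hg.1
    · intro g hg
      rw [mem_filter] at hg ⊢
      push Not at hg ⊢
      refine ⟨hg.2, by omega, ?_⟩
      simpa using hg.1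
    · intro g hg
      rw [mem_filter] at hg
      push Not at hg
      have := hg.2.1
      omega
    · intro g hg
      simp
  omega

/-- reflection -/
theorem runs_reflect (X Y : Finset ℕ) (T : ℕ) (hX : ∀ g ∈ X, g ≤ T) (hY : ∀ g ∈ Y, g ≤ T)
    (h : ∀ g, g ≤ T → (g ∈ Y ↔ T - g ∈ X)) : runs Y = runs X := by
  rw [runs_eq_ends X]
  unfold runs
  refine card_bij' (fun g _ => T - g) (fun g _ => T - g) ?_ ?_ ?_ ?_
  · intro g hg
    rw [mem_filter] at hg ⊢
    have hgT := hY g hg.1
    refine ⟨(h g hgT).mp hg.1, ?_⟩
    intro h1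
    rcases hg.2 with h2 | h2
    · have h3 := hX _ h1
      omega
    · have h3 := hX _ h1
      apply h2
      rw [h (g - 1) (by omega)]
      have : T - (g - 1) = T - g + 1 := by omega
      rw [this]; exact h1
  · intro g hg
    rw [mem_filter] at hg ⊢
    have hgT := hX g hg.1
    refine ⟨?_, ?_⟩
    · rw [h _ (by omega)]
      have : T - (T - g) = g := by omega
      rw [this]; exact hg.1
    · by_cases h0 : T - g = 0
      · exact Or.inl h0
      · right
        intro h1
        apply hg.2
        have h2 := (h _ (by omega)).mp h1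
        have : T - (T - g - 1) = g + 1 := by omega
        rw [this] at h2
        exact h2
  · intro g hg
    rw [mem_filter] at hg
    have := hY g hg.1
    omega
  · intro g hg
    rw [mem_filter] at hg
    have := hX g hg.1
    omega

end Pool.Agent.Lib.MP_534936_co.Gen
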