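import Pool.Agent.Lib.MP_534936_co.Gen.Basic
import Pool.Agent.Lib.MP_534936_co.Gen.Runs

/-! Reflection of a system. -/

set_option autoImplicit false

namespace Pool.Agent.Lib.MP_534936_co.Gen

open Finset

variable {ι α : Type}

def Inst.mir (I : Inst ι α) : Inst ι α where
  T := I.T
  lo := fun a => I.T - I.hi a
  hi := fun a => I.T - I.lo a
  D := fun x z => I.D z x
  p := I.r
  r := I.p
  own := I.own
  t := fun x => I.T + 1 - I.t x

theorem Inst.mir_busy {I : Inst ι α} (h : I.Ok) (x : ι) {g : ℕ} (hg : g ≤ I.T) :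
    I.mir.Busy x g ↔ I.Busy x (I.T - g) := by
  constructor
  · rintro ⟨a, ha, h1, h2⟩
    have h3 := h.le x a ha
    have h4 := h.leT x a ha
    refine ⟨a, ha, ?_, ?_⟩
    · have h5 : g ≤ I.T - I.lo a := h2
      omega
    · have h5 : I.T - I.hi a ≤ g := h1
      omega
  · rintro ⟨a, ha, h1, h2⟩
    have h3 := h.le x a ha
    have h4 := h.leT x a ha
    refine ⟨a, ha, ?_, ?_⟩
    · show I.T - I.hi a ≤ g
      omega
    · show g ≤ I.T - I.lo a
      omega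

theorem Inst.mirAux_H (I : Inst ι α) (h : I.Ok) (x : ι) {g : ℕ} (hg : g ≤ I.T) :
    I.mir.H x g ↔ I.L x (I.T - g) := by
  have hb := Inst.mir_busy h x hg
  have ht := h.tle x
  constructor
  · rintro ⟨h1, h2⟩
    have h3 : g < I.T + 1 - I.t x := h2
    exact ⟨fun h4 => h1 (hb.2 h4), by omega⟩
  · rintro ⟨h1, h2⟩
    refine ⟨fun h4 => h1 (hb.1 h4), ?_⟩
    show g < I.T + 1 - I.t x
    omega

theorem Inst.mirAux_L (I : Inst ι α) (h : I.Ok) (x : ι) {g : ℕ} (hg : g ≤ I.T) :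
    I.mir.L x g ↔ I.H x (I.T - g) := by
  have hb := Inst.mir_busy h x hg
  have ht := h.tle x
  constructor
  · rintro ⟨h1, h2⟩
    have h3 : I.T + 1 - I.t x ≤ g := h2
    exact ⟨fun h4 => h1 (hb.2 h4), by omega⟩
  · rintro ⟨h1, h2⟩
    refine ⟨fun h4 => h1 (hb.1 h4), ?_⟩
    show I.T + 1 - I.t x ≤ g
    omega

theorem Inst.mir_ok {I : Inst ι α} (h : I.Ok) : I.mir.Ok := by
  refine ⟨?_, ?_, ?_, ?_, ?_, ?_, ?_⟩
  · intro x a ha
    have h3 := h.le x a ha
    show I.T - I.hi a ≤ I.T - I.lo a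
    omega
  · intro x a ha
    show I.T - I.lo a ≤ I.T
    omega
  · exact h.disj
  · intro x
    show I.T + 1 - I.t x ≤ I.T + 1
    omega
  · intro x hx
    have hx' : 0 < I.T + 1 - I.t x := hx
    have h1 := h.hr x (by omega)
    refine ⟨h1.1, ?_⟩
    show I.T - I.hi (I.r x) = 0
    omega
  · intro x hx
    have hx' : I.T + 1 - I.t x ≤ I.T := hx
    have h1 := h.hp x (by omega)
    refine ⟨h1.1, ?_⟩
    show I.T - I.lo (I.p x) = I.T
    omega
  · intro x z hD g hg hH hL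
    have hg' : g ≤ I.T := hg
    exact h.star z x hD (I.T - g) (by omega) ((I.mirAux_L h z hg').1 hL) ((I.mirAux_H h x hg').1 hH)

theorem Inst.mir_sol {I : Inst ι α} (h : I.Ok) (hs : I.mir.Sol) : I.Sol := by
  obtain ⟨S, side, h1, h2, h3, h4, h5⟩ := hs
  have hlT : ∀ x, ∀ a ∈ S x, I.lo a ≤ I.hi a ∧ I.hi a ≤ I.T := by
    intro x a ha
    obtain ⟨y, hy⟩ := h1 x a ha
    exact ⟨h.le y a hy, h.leT y a hy⟩
  have hcov : ∀ x g, g ≤ I.T → (∃ b ∈ S x, I.mir.lo b ≤ g ∧ g ≤ I.mir.hi b) →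
      ∃ b ∈ S x, I.lo b ≤ I.T - g ∧ I.T - g ≤ I.hi b := by
    rintro x g hg ⟨b, hb, hb1, hb2⟩
    have hb3 : I.T - I.hi b ≤ g := hb1
    have hb4 : g ≤ I.T - I.lo b := hb2
    have hb5 := hlT x b hb
    exact ⟨b, hb, by omega, by omega⟩
  refine ⟨S, fun x => !(side x), h1, h2, ?_, ?_, ?_⟩
  · intro x hx
    have hx' : side x = false := by simpa using hx
    obtain ⟨h6, h7, h8⟩ := h4 x hx'
    have h6' : I.T + 1 - I.t x ≤ I.T := h6
    refine ⟨by omega, h7, ?_⟩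
    intro a ha g hg
    have h9 := hlT x a ha
    obtain ⟨b, hb, hb1, hb2⟩ := hcov x (I.T - g) (by omega) (h8 a ha (I.T - g)
      (by
        show I.T - I.hi a ≤ I.T - g
        omega)
      (by
        show I.T - g ≤ I.T
        omega))
    exact ⟨b, hb, by omega, by omega⟩
  · intro x hx
    have hx' : side x = true := by simpa using hx
    obtain ⟨h6, h7, h8⟩ := h3 x hx'
    have h6' : 0 < I.T + 1 - I.t x := h6
    refine ⟨by omega, h7, ?_⟩
    intro a ha g hg hgT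
    have h9 := hlT x a ha
    obtain ⟨b, hb, hb1, hb2⟩ := hcov x (I.T - g) (by omega) (h8 a ha (I.T - g)
      (by
        show I.T - g ≤ I.T - I.lo a
        omega))
    exact ⟨b, hb, by omega, by omega⟩
  · intro x z hD hx hz g hg
    have hx' : side x = false := by simpa using hx
    have hz' : side z = true := by simpa using hz
    have h6 := h5 z x hD hz' hx' (I.T - g) (by
      show I.T - g ≤ I.T
      omega)
    rcases h6 with h6 | h6
    · obtain ⟨b, hb, hb1, hb2⟩ := hcov z (I.T - g) (by omega) h6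
      exact Or.inr ⟨b, hb, by omega, by omega⟩
    · obtain ⟨b, hb, hb1, hb2⟩ := hcov x (I.T - g) (by omega) h6
      exact Or.inl ⟨b, hb, by omega, by omega⟩

theorem Inst.mir_H {I : Inst ι α} (h : I.Ok) (x : ι) {g : ℕ} (hg : g ≤ I.T) : I.mir.H x g ↔ I.L x (I.T - g) := by
  exact I.mirAux_H h x hg

theorem Inst.mir_L {I : Inst ι α} (h : I.Ok) (x : ι) {g : ℕ} (hg : g ≤ I.T) : I.mir.L x g ↔ I.H x (I.T - g) := by
  exact I.mirAux_L h x hg

variable [Fintype ι]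

theorem Inst.mir_Z {I : Inst ι α} (h : I.Ok) : I.mir.Z = I.Z := by
  ext x
  rw [Inst.mem_Z, Inst.mem_Z]
  have ht := h.tle x
  constructor
  · rintro ⟨h1, h2⟩
    have h1' : 0 < I.T + 1 - I.t x := h1
    have h2' : I.T + 1 - I.t x ≤ I.T := h2
    exact ⟨by omega, by omega⟩
  · rintro ⟨h1, h2⟩
    refine ⟨?_, ?_⟩
    · show 0 < I.T + 1 - I.t x
      omega
    · show I.T + 1 - I.t x ≤ I.T
      omega

theorem Inst.mirAux_ltT_AP {J : Inst ι α} {x : ι} {d : ℕ} (hq : (x, d) ∈ J.AP) : d < J.T :=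
  (Inst.mem_EP.1 (Inst.mem_AP.1 hq).1).1

theorem Inst.mirAux_ltT_AR {J : Inst ι α} {x : ι} {d : ℕ} (hq : (x, d) ∈ J.AR) : d < J.T :=
  (Inst.mem_ER.1 (Inst.mem_AR.1 hq).1).1

theorem Inst.mirAux_AP {I : Inst ι α} (h : I.Ok) (x : ι) {d : ℕ} (hd : d < I.T) :
    (x, d) ∈ I.mir.AP ↔ (x, I.T - 1 - d) ∈ I.AR := by
  have ht := h.tle x
  have e1 : I.T - d = I.T - 1 - d + 1 := by omega
  have e2 : I.T - (d + 1) = I.T - 1 - d := by omega
  have h1 : I.mir.H x d ↔ I.L x (I.T - 1 - d + 1) := by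
    rw [I.mirAux_H h x (show d ≤ I.T by omega), e1]
  have h2 : I.mir.H x (d + 1) ↔ I.L x (I.T - 1 - d) := by
    rw [I.mirAux_H h x (show d + 1 ≤ I.T by omega), e2]
  rw [Inst.mem_AP, Inst.mem_EP, Inst.mem_AR, Inst.mem_ER]
  simp only
  constructor
  · rintro ⟨⟨h3, h4, h5⟩, h6⟩
    refine ⟨⟨by omega, fun h7 => h5 (h2.2 h7), h1.1 h4⟩, ?_⟩
    rcases h6 with h6 | ⟨g, h6, h7⟩
    · left
      have h6' : I.T + 1 - I.t x = I.T + 1 := h6
      omega
    · right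
      have h8 : g < I.T + 1 - I.t x := h7.2
      exact ⟨I.T - g, by omega, (I.mirAux_H h x (show g ≤ I.T by omega)).1 h7⟩
  · rintro ⟨⟨h3, h4, h5⟩, h6⟩
    refine ⟨⟨hd, h1.2 h5, fun h7 => h4 (h2.1 h7)⟩, ?_⟩
    rcases h6 with h6 | ⟨g, h6, h7⟩
    · left
      show I.T + 1 - I.t x = I.T + 1
      omega
    · right
      refine ⟨I.T - g, by omega, (I.mirAux_H h x (show I.T - g ≤ I.T by omega)).2 ?_⟩
      have e3 : I.T - (I.T - g) = g := by omega
      rw [e3]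
      exact h7

theorem Inst.mirAux_AR {I : Inst ι α} (h : I.Ok) (x : ι) {e : ℕ} (he : e < I.T) :
    (x, e) ∈ I.mir.AR ↔ (x, I.T - 1 - e) ∈ I.AP := by
  have ht := h.tle x
  have e1 : I.T - e = I.T - 1 - e + 1 := by omega
  have e2 : I.T - (e + 1) = I.T - 1 - e := by omega
  have h1 : I.mir.L x e ↔ I.H x (I.T - 1 - e + 1) := by
    rw [I.mirAux_L h x (show e ≤ I.T by omega), e1]
  have h2 : I.mir.L x (e + 1) ↔ I.H x (I.T - 1 - e) := by
    rw [I.mirAux_L h x (show e + 1 ≤ I.T by omega), e2]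
  rw [Inst.mem_AR, Inst.mem_ER, Inst.mem_AP, Inst.mem_EP]
  simp only
  constructor
  · rintro ⟨⟨h3, h4, h5⟩, h6⟩
    refine ⟨⟨by omega, h2.1 h5, fun h7 => h4 (h1.2 h7)⟩, ?_⟩
    rcases h6 with h6 | ⟨g, h6, h7⟩
    · left
      have h6' : I.T + 1 - I.t x = 0 := h6
      omega
    · right
      exact ⟨I.T - g, by omega, (I.mirAux_L h x (show g ≤ I.T by omega)).1 h7⟩
  · rintro ⟨⟨h3, h4, h5⟩, h6⟩
    refine ⟨⟨he, fun h7 => h5 (h1.1 h7), h2.2 h4⟩, ?_⟩
    rcases h6 with h6 | ⟨g, h6, h7⟩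
    · left
      show I.T + 1 - I.t x = 0
      omega
    · right
      have h8 : g ≤ I.T := Inst.H.leT h h7
      refine ⟨I.T - g, by omega, (I.mirAux_L h x (show I.T - g ≤ I.T by omega)).2 ?_⟩
      have e3 : I.T - (I.T - g) = g := by omega
      rw [e3]
      exact h7

theorem Inst.mir_AP {I : Inst ι α} (h : I.Ok) : I.mir.AP.card = I.AR.card := by
  refine Finset.card_bij' (fun q _ => (q.1, I.T - 1 - q.2)) (fun q _ => (q.1, I.T - 1 - q.2)) ?_ ?_ ?_ ?_
  · rintro ⟨x, d⟩ hq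
    have hd : d < I.mir.T := Inst.mirAux_ltT_AP (J := I.mir) hq
    exact (Inst.mirAux_AP h x hd).1 hq
  · rintro ⟨x, e⟩ hq
    have he : e < I.T := Inst.mirAux_ltT_AR hq
    have h1 : I.T - 1 - (I.T - 1 - e) = e := by omega
    refine (Inst.mirAux_AP h x (show I.T - 1 - e < I.T by omega)).2 ?_
    rw [h1]
    exact hq
  · rintro ⟨x, d⟩ hq
    have hd : d < I.T := Inst.mirAux_ltT_AP (J := I.mir) hq
    exact Prod.ext rfl (show I.T - 1 - (I.T - 1 - d) = d by omega)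
  · rintro ⟨x, e⟩ hq
    have he : e < I.T := Inst.mirAux_ltT_AR hq
    exact Prod.ext rfl (show I.T - 1 - (I.T - 1 - e) = e by omega)

theorem Inst.mir_AR {I : Inst ι α} (h : I.Ok) : I.mir.AR.card = I.AP.card := by
  refine Finset.card_bij' (fun q _ => (q.1, I.T - 1 - q.2)) (fun q _ => (q.1, I.T - 1 - q.2)) ?_ ?_ ?_ ?_
  · rintro ⟨x, d⟩ hq
    have hd : d < I.mir.T := Inst.mirAux_ltT_AR (J := I.mir) hq
    exact (Inst.mirAux_AR h x hd).1 hq
  · rintro ⟨x, e⟩ hq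
    have he : e < I.T := Inst.mirAux_ltT_AP hq
    have h1 : I.T - 1 - (I.T - 1 - e) = e := by omega
    refine (Inst.mirAux_AR h x (show I.T - 1 - e < I.T by omega)).2 ?_
    rw [h1]
    exact hq
  · rintro ⟨x, d⟩ hq
    have hd : d < I.T := Inst.mirAux_ltT_AR (J := I.mir) hq
    exact Prod.ext rfl (show I.T - 1 - (I.T - 1 - d) = d by omega)
  · rintro ⟨x, e⟩ hq
    have he : e < I.T := Inst.mirAux_ltT_AP hq
    exact Prod.ext rfl (show I.T - 1 - (I.T - 1 - e) = e by omega)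

omit [Fintype ι] in
theorem Inst.mirAux_mem_B (J : Inst ι α) (x : ι) (g : ℕ) : g ∈ J.B x ↔ g ≤ J.T ∧ J.Busy x g := by
  classical
  unfold Inst.B
  rw [Finset.mem_filter, Finset.mem_range, Nat.lt_succ_iff]

theorem Inst.mir_comps {I : Inst ι α} (h : I.Ok) : I.mir.comps = I.comps := by
  classical
  unfold Inst.comps
  refine Finset.sum_congr rfl ?_
  intro x _
  refine runs_reflect (I.B x) (I.mir.B x) I.T ?_ ?_ ?_
  · intro g hg
    have h1 := (Inst.mirAux_mem_B I x g).1 hg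
    exact h1.1
  · intro g hg
    have h1 := (Inst.mirAux_mem_B I.mir x g).1 hg
    exact h1.1
  · intro g hg
    rw [Inst.mirAux_mem_B, Inst.mirAux_mem_B]
    have h1 := Inst.mir_busy h x hg
    constructor
    · rintro ⟨h2, h3⟩
      exact ⟨by omega, h1.1 h3⟩
    · rintro ⟨h2, h3⟩
      exact ⟨hg, h1.2 h3⟩

end Pool.Agent.Lib.MP_534936_co.Gen
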