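import Pool.Agent.Lib.MP_534936_co.Gen.Basic

/-! The P-move: definitions. -/

set_option autoImplicit false

namespace Pool.Agent.Lib.MP_534936_co.Gen

open Finset

variable {ι α : Type}

/-- where the arcs of filler `f` go -/
inductive Dest (Q : ι → Prop) (R : (ι × ℕ) → (ι × ℕ) ⊕ ι → Prop) : (ι × ℕ) ⊕ ι → ι → Prop
  | base {q : ι × ℕ} {f : (ι × ℕ) ⊕ ι} : R q f → ¬ Q q.1 → Dest Q R f q.1
  | step {q : ι × ℕ} {f : (ι × ℕ) ⊕ ι} {k : ι} : R q f → Q q.1 → Dest Q R (Sum.inr q.1) k → Dest Q R f k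

/-- data of a P-move: `S` = parts which are not filled, `A` = removed components, `Q` = rows which become rows of type P,
`R` = injection of the other parts into `A` and `Q` -/
structure Mv [Fintype ι] (I : Inst ι α) (S A : (ι × ℕ) → Prop) (Q : ι → Prop)
    (R : (ι × ℕ) → (ι × ℕ) ⊕ ι → Prop) : Prop where
  ok : I.Ok
  hH : ∀ z ∈ I.Z, ∃ g, I.H z g
  hA : ∀ a, A a → a ∈ I.AP ∧ ∀ q, S q → ¬ I.Adj (Sum.inl a) q
  hQ : ∀ z, Q z → z ∈ I.Z ∧ ∀ q, S q → ¬ I.Adj (Sum.inr z) q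
  hR1 : ∀ q, q ∈ I.ER → ¬ S q → ∃ f, R q f
  hR2 : ∀ q f, R q f → q ∈ I.ER ∧ ¬ S q ∧ I.Adj f q
  hR3 : ∀ q f, R q f → (∃ a, f = Sum.inl a ∧ A a) ∨ (∃ z, f = Sum.inr z ∧ Q z)
  hR4 : ∀ q f f', R q f → R q f' → f = f'
  hR5 : ∀ q q' f, R q f → R q' f → q = q'

/-- arcs which stay in their row -/
def Stay (I : Inst ι α) (A : (ι × ℕ) → Prop) (Q : ι → Prop) (k : ι) (c : α) : Prop :=
  c ∈ I.own k ∧ (∀ d, A (k, d) → ¬ I.InC k d (I.lo c)) ∧ (Q k → ∃ g, I.H k g ∧ I.lo c ≤ g)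

open Classical in
/-- the system after the P-move -/
noncomputable def mv [Fintype ι] (I : Inst ι α) (A : (ι × ℕ) → Prop) (Q : ι → Prop)
    (R : (ι × ℕ) → (ι × ℕ) ⊕ ι → Prop) : Inst ι α :=
  { I with
    own := fun k => (univ.biUnion I.own).filter
      (fun c => Stay I A Q k c ∨ ∃ f, I.Carries f c ∧ Dest Q R f k)
    t := fun x => if Q x then I.T + 1 else I.t x }

section

variable [Fintype ι] {I : Inst ι α} {S A : (ι × ℕ) → Prop} {Q : ι → Prop} {R : (ι × ℕ) → (ι × ℕ) ⊕ ι → Prop}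

theorem mem_mv {k : ι} {c : α} : c ∈ (mv I A Q R).own k ↔
    (Stay I A Q k c ∨ ∃ f, I.Carries f c ∧ Dest Q R f k) := by
  classical
  simp only [mv, mem_filter, mem_biUnion, mem_univ, true_and, and_iff_right_iff_imp]
  rintro (h | ⟨f, h, -⟩)
  · exact ⟨k, h.1⟩
  · rcases f with a | z
    · exact ⟨a.1, h.1⟩
    · exact ⟨z, h.1⟩

theorem mv_t {k : ι} : (mv I A Q R).t k = (open Classical in if Q k then I.T + 1 else I.t k) := rfl

theorem mv_lo : (mv I A Q R).lo = I.lo := rfl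
theorem mv_hi : (mv I A Q R).hi = I.hi := rfl
theorem mv_T : (mv I A Q R).T = I.T := rfl
theorem mv_D : (mv I A Q R).D = I.D := rfl
theorem mv_p : (mv I A Q R).p = I.p := rfl
theorem mv_r : (mv I A Q R).r = I.r := rfl

/-- the source of a carried arc -/
theorem Dest.range {f : (ι × ℕ) ⊕ ι} {k : ι} (hd : Dest Q R f k) : ∃ q, R q f := by
  cases hd with
  | base h1 _ => exact ⟨_, h1⟩
  | step h1 _ _ => exact ⟨_, h1⟩

end

end Pool.Agent.Lib.MP_534936_co.Gen
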