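import Pool.Agent.Lib.MP_534936_co.Gen.Move

/-! The P-move: rows stay disjoint. -/

set_option autoImplicit false

namespace Pool.Agent.Lib.MP_534936_co.Gen

open Finset

variable {ι α : Type} [Fintype ι] {I : Inst ι α} {S A : (ι × ℕ) → Prop} {Q : ι → Prop}
  {R : (ι × ℕ) → (ι × ℕ) ⊕ ι → Prop}

theorem Mv.dest_unique (m : Mv I S A Q R) {f : (ι × ℕ) ⊕ ι} {k k' : ι} (h : Dest Q R f k) (h' : Dest Q R f k') :
    k = k' := by
  induction h with
  | base h1 h2 =>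
    cases h' with
    | base h3 h4 => rw [m.hR5 _ _ _ h1 h3]
    | step h3 h4 h5 =>
      have := m.hR5 _ _ _ h1 h3
      subst this
      exact absurd h4 h2
  | step h1 h2 h3 ih =>
    cases h' with
    | base h4 h5 =>
      have := m.hR5 _ _ _ h1 h4
      subst this
      exact absurd h2 h5
    | step h4 h5 h6 =>
      have := m.hR5 _ _ _ h1 h4
      subst this
      exact ih h6

/-- a destination is never a row of `Q` -/
theorem Mv.dest_notQ (_m : Mv I S A Q R) {f : (ι × ℕ) ⊕ ι} {k : ι} (h : Dest Q R f k) : ¬ Q k := by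
  induction h with
  | base _ h2 => exact h2
  | step _ _ _ ih => exact ih

/-- an arc is carried by at most one filler -/
theorem Mv.carries_unique (m : Mv I S A Q R) {f f' : (ι × ℕ) ⊕ ι} {k k' : ι} {c : α} (h : Dest Q R f k)
    (h' : Dest Q R f' k') (hc : I.Carries f c) (hc' : I.Carries f' c) : f = f' := by
  have hA : ∀ {a : ι × ℕ} {k : ι}, Dest Q R (Sum.inl a) k → a ∈ I.AP := by
    intro a k hd
    obtain ⟨q, hq⟩ := hd.range
    rcases m.hR3 _ _ hq with ⟨b, hb, hb'⟩ | ⟨z, hz, _⟩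
    · rw [Sum.inl.inj hb]
      exact (m.hA b hb').1
    · cases hz
  have hZ : ∀ {z : ι} {k : ι}, Dest Q R (Sum.inr z) k → z ∈ I.Z := by
    intro z k hd
    obtain ⟨q, hq⟩ := hd.range
    rcases m.hR3 _ _ hq with ⟨b, hb, _⟩ | ⟨y, hy, hy'⟩
    · cases hb
    · rw [Sum.inr.inj hy]
      exact (m.hQ y hy').1
  -- a component and a late part of the same row do not meet
  have key : ∀ {a : ι × ℕ} {z : ι} {k k' : ι}, Dest Q R (Sum.inl a) k → Dest Q R (Sum.inr z) k' →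
      I.Carries (Sum.inl a) c → I.Carries (Sum.inr z) c → False := by
    intro a z k k' hd hd' h1 h2
    obtain ⟨h3, h4⟩ := h1
    obtain ⟨h5, h6⟩ := h2
    have hz := m.ok.disj _ _ _ h3 h5
    subst hz
    obtain ⟨h7, h8⟩ := Inst.mem_AP.1 (hA hd)
    have h9 := (Inst.mem_Z.1 (hZ hd')).2
    rcases h8 with h8 | ⟨g, hg, hg'⟩
    · omega
    · exact hg'.1 (h4.2 g hg (h6 g hg').le)
  rcases f with a | z <;> rcases f' with a' | z'
  · obtain ⟨h3, h4⟩ := hc
    obtain ⟨h5, h6⟩ := hc'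
    obtain ⟨x, d⟩ := a
    obtain ⟨x', d'⟩ := a'
    have hx : x = x' := m.ok.disj _ _ _ h3 h5
    subst hx
    have b1 : ¬ I.Busy x d := (Inst.mem_EP.1 (Inst.mem_AP.1 (hA h)).1).2.1.1
    have b2 : ¬ I.Busy x d' := (Inst.mem_EP.1 (Inst.mem_AP.1 (hA h')).1).2.1.1
    rw [Inst.comp_unique b1 b2 h4 h6]
  · exact absurd (key h h' hc hc') id
  · exact absurd (key h' h hc' hc) id
  · obtain ⟨h3, _⟩ := hc
    obtain ⟨h5, _⟩ := hc'
    rw [m.ok.disj _ _ _ h3 h5]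

theorem Mv.not_stay (m : Mv I S A Q R) {f : (ι × ℕ) ⊕ ι} {k x : ι} {c : α} (h : Dest Q R f k)
    (hc : I.Carries f c) : ¬ Stay I A Q x c := by
  rintro ⟨h1, h2, h3⟩
  obtain ⟨q, hq⟩ := h.range
  rcases m.hR3 _ _ hq with ⟨b, hb, hb'⟩ | ⟨y, hy, hy'⟩
  · subst hb
    obtain ⟨h4, h5⟩ := hc
    have hx := m.ok.disj _ _ _ h4 h1
    subst hx
    exact h2 b.2 hb' h5
  · subst hy
    obtain ⟨h4, h5⟩ := hc
    have hx := m.ok.disj _ _ _ h4 h1
    subst hx
    obtain ⟨g, hg, hg'⟩ := h3 hy'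
    have := h5 g hg
    omega

theorem Mv.disj (m : Mv I S A Q R) (x y : ι) (a : α) (hx : a ∈ (mv I A Q R).own x) (hy : a ∈ (mv I A Q R).own y) :
    x = y := by
  rcases mem_mv.1 hx with h1 | ⟨f, h1, h2⟩ <;> rcases mem_mv.1 hy with h3 | ⟨f', h3, h4⟩
  · exact m.ok.disj _ _ _ h1.1 h3.1
  · exact absurd h1 (m.not_stay h4 h3)
  · exact absurd h3 (m.not_stay h2 h1)
  · have := m.carries_unique h2 h4 h1 h3
    subst this
    exact m.dest_unique h2 h4

/-- the new arcs are old arcs -/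
theorem Mv.old (_m : Mv I S A Q R) {x : ι} {a : α} (hx : a ∈ (mv I A Q R).own x) : ∃ y, a ∈ I.own y := by
  rcases mem_mv.1 hx with h1 | ⟨f, h1, _⟩
  · exact ⟨x, h1.1⟩
  · rcases f with b | z
    · exact ⟨b.1, h1.1⟩
    · exact ⟨z, h1.1⟩

end Pool.Agent.Lib.MP_534936_co.Gen
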