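import Pool.Agent.Lib.MP_534936_co.Gen.Move

/-! The P-move: the parts outside `S` of the rows outside `Q` are filled. -/

set_option autoImplicit false

namespace Pool.Agent.Lib.MP_534936_co.Gen

open Finset

variable {ι α : Type} [Fintype ι] {I : Inst ι α} {S A : (ι × ℕ) → Prop} {Q : ι → Prop}
  {R : (ι × ℕ) → (ι × ℕ) ⊕ ι → Prop}

/-- one step: the filler `f` of the part `(x, e)`, which contains gap `g`, has an arc crossing `g`, or it is a row `y` of
`Q` and `g` lies in a part `(y, e')` which is not in `S` -/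
theorem Mv.fill_step (m : Mv I S A Q R) {x : ι} {e g : ℕ} {f : (ι × ℕ) ⊕ ι} (hR : R (x, e) f) (hP : I.InP x e g) :
    (∃ c, I.Carries f c ∧ I.lo c ≤ g ∧ g ≤ I.hi c) ∨
      (∃ y e', f = Sum.inr y ∧ Q y ∧ (y, e') ∈ I.ER ∧ ¬ S (y, e') ∧ I.InP y e' g) := by
  obtain ⟨h1, h2, h3⟩ := m.hR2 _ _ hR
  rcases m.hR3 _ _ hR with ⟨a, rfl, ha⟩ | ⟨z, rfl, hz⟩
  · obtain ⟨i, d⟩ := a
    left
    obtain ⟨h4, h5⟩ := h3
    simp only at h4 h5
    have hAP : (i, d) ∈ I.AP := (m.hA _ ha).1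
    have hC : I.InC i d g := Inst.sub_of_adj m.ok hAP h4 h5 hP
    have hd : ¬ I.Busy i d := (Inst.mem_EP.1 (Inst.mem_AP.1 hAP).1).2.1.1
    obtain ⟨c, hc, hc1, hc2⟩ := hC.2 g hC.1 le_rfl
    exact ⟨c, ⟨hc, hC.arc m.ok hd hc hc1 hc2⟩, hc1, hc2⟩
  · have hzZ := Inst.mem_Z.1 (m.hQ z hz).1
    have h3' : ∀ g', I.H z g' → g' ≤ e := h3
    by_cases hb : I.Busy z g
    · left
      obtain ⟨c, hc, hc1, hc2⟩ := hb
      refine ⟨c, ⟨hc, fun g' hg' => ?_⟩, hc1, hc2⟩
      by_contra hcon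
      have h4 := h3' g' hg'
      have h5 := hP.1
      exact hg'.1 ⟨c, hc, by omega, by omega⟩
    · right
      have hL : I.L z g := by
        refine ⟨hb, ?_⟩
        by_contra hcon
        have h4 := h3' g ⟨hb, by omega⟩
        have h5 := hP.1
        omega
      rcases Inst.exists_run hP.2.1 hL with ⟨e', h4, h5⟩ | h4
      · refine ⟨z, e', rfl, hz, h4, ?_, h5⟩
        intro hS
        refine (m.hQ z hz).2 _ hS ?_
        intro g' hg'
        have h6 := h5.2.2 (e' + 1) (by omega) (by have := h5.1; omega)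
        have h7 := h6.2
        have h8 := hg'.2
        simp only
        omega
      · exfalso
        have h5 := (h4 0 (Nat.zero_le _)).2
        omega

/-- the part `(j, e)` of a row outside `Q` is filled (pigeonhole along the chain of fillers at gap `g`) -/
theorem Mv.fill (m : Mv I S A Q R) {j : ι} (hj : ¬ Q j) {e g : ℕ} (hE : (j, e) ∈ I.ER) (hS : ¬ S (j, e))
    (hP : I.InP j e g) : (mv I A Q R).Busy j g := by
  classical
  by_contra hb
  -- the rows of the chain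
  let P : ι → Prop := fun x => Q x ∧ Dest Q R (Sum.inr x) j ∧
    ∃ e', (x, e') ∈ I.ER ∧ ¬ S (x, e') ∧ I.InP x e' g
  have key : ∀ x, (x = j ∨ P x) → ∃ e' y, R (x, e') (Sum.inr y) ∧ P y := by
    intro x hx
    have hx' : ∃ e', (x, e') ∈ I.ER ∧ ¬ S (x, e') ∧ I.InP x e' g := by
      rcases hx with rfl | hx
      · exact ⟨e, hE, hS, hP⟩
      · exact hx.2.2
    obtain ⟨e', h1, h2, h3⟩ := hx'
    obtain ⟨f, hf⟩ := m.hR1 _ h1 h2
    have hd : Dest Q R f j := by
      rcases hx with rfl | hx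
      · exact Dest.base hf hj
      · exact Dest.step hf hx.1 hx.2.1
    rcases m.fill_step hf h3 with ⟨c, hc, hc1, hc2⟩ | ⟨y, e'', rfl, h4, h5, h6, h7⟩
    · exact absurd ⟨c, mem_mv.2 (Or.inr ⟨f, hc, hd⟩), hc1, hc2⟩ hb
    · exact ⟨e', y, hf, h4, hd, e'', h5, h6, h7⟩
  have hchoose : ∀ x, ∃ y, (x = j ∨ P x) → ∃ e', R (x, e') (Sum.inr y) ∧ P y := by
    intro x
    by_cases hx : x = j ∨ P x
    · obtain ⟨e', y, h1, h2⟩ := key x hx
      exact ⟨y, fun _ => ⟨e', h1, h2⟩⟩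
    · exact ⟨x, fun h => absurd h hx⟩
  choose nx hnx using hchoose
  have hjP : j ∉ univ.filter P := by
    rw [mem_filter]
    rintro ⟨-, h1⟩
    exact hj h1.1
  have hmem : ∀ x, x ∈ insert j (univ.filter P) → (x = j ∨ P x) := by
    intro x hx
    rw [mem_insert, mem_filter] at hx
    rcases hx with h1 | h1
    · exact Or.inl h1
    · exact Or.inr h1.2
  have hcard : (insert j (univ.filter P)).card ≤ (univ.filter P).card := by
    refine card_le_card_of_injOn nx ?_ ?_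
    · intro x hx
      obtain ⟨e', -, h1⟩ := hnx x (hmem x hx)
      rw [mem_coe, mem_filter]
      exact ⟨mem_univ _, h1⟩
    · intro x hx x' hx' hxx
      obtain ⟨e', h1, -⟩ := hnx x (hmem x hx)
      obtain ⟨e'', h2, -⟩ := hnx x' (hmem x' hx')
      rw [← hxx] at h2
      exact congrArg Prod.fst (m.hR5 _ _ _ h1 h2)
  rw [card_insert_of_notMem hjP] at hcard
  omega

end Pool.Agent.Lib.MP_534936_co.Gen
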