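import Pool.Agent.Lib.MP_534936_co.Gen.Move
import Pool.Agent.Lib.MP_534936_co.Gen.Runs

/-! The P-move with `Q` empty lowers the number of components. -/

set_option autoImplicit false

namespace Pool.Agent.Lib.MP_534936_co.Gen

open Finset

variable {ι α : Type} [Fintype ι] {I : Inst ι α} {S A : (ι × ℕ) → Prop} {Q : ι → Prop}
  {R : (ι × ℕ) → (ι × ℕ) ⊕ ι → Prop}

private theorem MvProg_idle (m : Mv I S A Q R) {a : ι × ℕ} (ha : A a) : ¬ I.Busy a.1 a.2 :=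
  (Inst.mem_EP.1 (Inst.mem_AP.1 (m.hA a ha).1).1).2.1.1

private theorem MvProg_inl (m : Mv I S A Q R) (hQ : ∀ z, ¬ Q z) {q : ι × ℕ} {f : (ι × ℕ) ⊕ ι} (h : R q f) :
    ∃ a, f = Sum.inl a ∧ A a := by
  rcases m.hR3 q f h with h1 | ⟨z, -, hz⟩
  · exact h1
  · exact absurd hz (hQ z)

private theorem MvProg_A (m : Mv I S A Q R) (hQ : ∀ z, ¬ Q z) {q a : ι × ℕ} (h : R q (Sum.inl a)) : A a := by
  obtain ⟨a', h1, h2⟩ := MvProg_inl m hQ h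
  cases h1
  exact h2

/-- the busy gaps after the move, when `Q` is empty -/
theorem Mv.busy_iff (m : Mv I S A Q R) (hQ : ∀ z, ¬ Q z) (k : ι) (g : ℕ) :
    (mv I A Q R).Busy k g ↔ (I.Busy k g ∧ ¬ ∃ d, A (k, d) ∧ I.InC k d g) ∨
      ∃ e a, R (k, e) (Sum.inl a) ∧ I.InC a.1 a.2 g := by
  constructor
  · rintro ⟨c, hc, h1, h2⟩
    change I.lo c ≤ g at h1
    change g ≤ I.hi c at h2
    rcases mem_mv.1 hc with hs | ⟨f, hf, hd⟩
    · left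
      refine ⟨⟨c, hs.1, h1, h2⟩, ?_⟩
      rintro ⟨d, hA, hC⟩
      exact hs.2.1 d hA (hC.arc m.ok (MvProg_idle m hA) hs.1 h1 h2)
    · right
      cases hd with
      | @base q _ hr _ =>
        obtain ⟨a, rfl, ha⟩ := MvProg_inl m hQ hr
        exact ⟨q.2, a, hr, Inst.InC.extend hf.1 hf.2 h1 h2⟩
      | step hr hq _ => exact absurd hq (hQ _)
  · rintro (⟨⟨c, hc, h1, h2⟩, hn⟩ | ⟨e, a, hr, hC⟩)
    · refine ⟨c, mem_mv.2 (Or.inl ⟨hc, ?_, fun h => absurd h (hQ k)⟩), h1, h2⟩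
      intro d hA hC
      exact hn ⟨d, hA, Inst.InC.extend hc hC h1 h2⟩
    · obtain ⟨c, hc, h1, h2⟩ := hC.2 g hC.1 le_rfl
      have hA := MvProg_A m hQ hr
      refine ⟨c, mem_mv.2 (Or.inr ⟨Sum.inl a, ⟨hc, hC.arc m.ok (MvProg_idle m hA) hc h1 h2⟩, ?_⟩), h1, h2⟩
      exact Dest.base hr (hQ _)

omit [Fintype ι] in
private theorem MvProg_memB {J : Inst ι α} {x : ι} {g : ℕ} :
    g ∈ J.B x ↔ g ≤ J.T ∧ J.Busy x g := by
  classical
  simp [Inst.B]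

private theorem MvProg_link (m : Mv I S A Q R) (hQ : ∀ z, ¬ Q z) {k : ι} {e : ℕ} {a : ι × ℕ}
    (hr : R (k, e) (Sum.inl a)) : ∃ w, I.InC a.1 a.2 w ∧ I.L k w ∧ I.Busy k (w + 1) := by
  obtain ⟨h1, _, h3⟩ := m.hR2 _ _ hr
  obtain ⟨w, h4, h5⟩ := Inst.run_end m.ok h1
  have h6 : I.D a.1 k ∧ I.InC a.1 a.2 (e + 1) := h3
  exact ⟨w, Inst.sub_of_adj m.ok (m.hA a (MvProg_A m hQ hr)).1 h6.1 h6.2 h4, h4.2.2 w h4.1 le_rfl, h5⟩

open Classical in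
theorem Mv.runs_le (m : Mv I S A Q R) (hQ : ∀ z, ¬ Q z) (k : ι) :
    runs ((mv I A Q R).B k) + ((range I.T).filter (fun d => A (k, d))).card ≤ runs (I.B k) := by
  set K := (range I.T).filter (fun d => A (k, d)) with hKdef
  have hK : ∀ d ∈ K, d ∉ I.B k ∧ d + 1 ∈ I.B k := by
    intro d hd
    obtain ⟨h1, h2⟩ := mem_filter.1 hd
    refine ⟨fun h => MvProg_idle m h2 (MvProg_memB.1 h).2, MvProg_memB.2 ⟨?_, ?_⟩⟩
    · have := mem_range.1 h1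
      omega
    · exact (Inst.AP.busy (m.hA _ h2).1).2 (d + 1) (by omega) le_rfl
  set Y := (I.B k).filter (fun g => ¬ ∃ d ∈ K, d < g ∧ ∀ j, d < j → j ≤ g → j ∈ I.B k) with hYdef
  have hY := runs_sdiff (I.B k) K hK Y (fun g => by rw [hYdef, mem_filter])
  -- description of Y
  have hYmem : ∀ g, g ∈ Y ↔ I.Busy k g ∧ ¬ ∃ d, A (k, d) ∧ I.InC k d g := by
    intro g
    rw [hYdef, mem_filter, MvProg_memB]
    constructor
    · rintro ⟨⟨h1, h2⟩, h3⟩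
      refine ⟨h2, ?_⟩
      rintro ⟨d, hA, hC⟩
      apply h3
      refine ⟨d, mem_filter.2 ⟨mem_range.2 (by have := hC.1; omega), hA⟩, hC.1, fun j hj hj' => ?_⟩
      exact MvProg_memB.2 ⟨le_trans hj' h1, hC.2 j hj hj'⟩
    · rintro ⟨h2, h3⟩
      refine ⟨⟨Inst.Busy.leT m.ok h2, h2⟩, ?_⟩
      rintro ⟨d, hd, h4, h5⟩
      exact h3 ⟨d, (mem_filter.1 hd).2, h4, fun j hj hj' => (MvProg_memB.1 (h5 j hj hj')).2⟩
  -- intervals
  have hex : ∀ e, (∃ a, R (k, e) (Sum.inl a)) → ∃ u v : ℕ, ∀ a, R (k, e) (Sum.inl a) →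
      ∀ g, I.InC a.1 a.2 g ↔ u ≤ g ∧ g ≤ v := by
    rintro e ⟨a, ha⟩
    obtain ⟨v, hv⟩ := Inst.comp_Icc m.ok (m.hA a (MvProg_A m hQ ha)).1
    refine ⟨a.2 + 1, v, fun a' ha' g => ?_⟩
    have : a' = a := Sum.inl.inj (m.hR4 _ _ _ ha' ha)
    subst this
    exact hv g
  choose! u v huv using hex
  set K' := (range I.T).filter (fun e => ∃ a, R (k, e) (Sum.inl a)) with hK'
  have hint : ∀ e ∈ K', ∃ w, u e ≤ w ∧ w ≤ v e ∧ w + 1 ∈ Y := by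
    intro e he
    obtain ⟨a, ha⟩ := (mem_filter.1 he).2
    obtain ⟨w, h1, h2, h3⟩ := MvProg_link m hQ ha
    obtain ⟨h4, h5⟩ := (huv e ⟨a, ha⟩ a ha w).1 h1
    refine ⟨w, h4, h5, (hYmem _).2 ⟨h3, ?_⟩⟩
    rintro ⟨d, hA, hC⟩
    by_cases hdw : d < w
    · exact h2.1 (hC.2 w hdw (by omega))
    · have hd : d = w := by have := hC.1; omega
      subst hd
      have h6 := (Inst.mem_EP.1 (Inst.mem_AP.1 (m.hA _ hA).1).1).2.1
      have h7 : d < I.t k := h6.2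
      have h8 : I.t k ≤ d := h2.2
      omega
  have hun := runs_biUnion_Icc Y K' u v hint
  have hB : (mv I A Q R).B k = Y ∪ K'.biUnion (fun e => Icc (u e) (v e)) := by
    ext g
    rw [MvProg_memB, Mv.busy_iff m hQ, mem_union, mem_biUnion, hYmem]
    constructor
    · rintro ⟨_, h | ⟨e, a, hr, hC⟩⟩
      · exact Or.inl h
      · right
        refine ⟨e, mem_filter.2 ⟨mem_range.2 ?_, a, hr⟩, mem_Icc.2 ((huv e ⟨a, hr⟩ a hr g).1 hC)⟩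
        exact (Inst.mem_ER.1 (m.hR2 _ _ hr).1).1
    · rintro (h | ⟨e, he, hg⟩)
      · exact ⟨Inst.Busy.leT m.ok h.1, Or.inl h⟩
      · obtain ⟨a, hr⟩ := (mem_filter.1 he).2
        have hC := (huv e ⟨a, hr⟩ a hr g).2 (mem_Icc.1 hg)
        exact ⟨Inst.Busy.leT m.ok (hC.2 g hC.1 le_rfl), Or.inr ⟨e, a, hr, hC⟩⟩
  rw [hB]
  omega

theorem Mv.comps_lt (m : Mv I S A Q R) (hQ : ∀ z, ¬ Q z) {a : ι × ℕ} (ha : A a) :
    (mv I A Q R).comps < I.comps := by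
  classical
  refine Finset.sum_lt_sum (fun k _ => ?_) ⟨a.1, mem_univ _, ?_⟩
  · have := Mv.runs_le m hQ k
    omega
  · have h1 := Mv.runs_le m hQ a.1
    have h2 : 0 < ((range I.T).filter (fun d => A (a.1, d))).card := by
      refine card_pos.2 ⟨a.2, mem_filter.2 ⟨mem_range.2 ?_, ha⟩⟩
      exact (Inst.mem_EP.1 (Inst.mem_AP.1 (m.hA a ha).1).1).1
    omega

end Pool.Agent.Lib.MP_534936_co.Gen
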