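import Pool.Agent.Lib.MP_534936_co.Gen.Move

/-! The P-move: the roots stay. -/

set_option autoImplicit false

namespace Pool.Agent.Lib.MP_534936_co.Gen

open Finset

variable {ι α : Type} [Fintype ι] {I : Inst ι α} {S A : (ι × ℕ) → Prop} {Q : ι → Prop}
  {R : (ι × ℕ) → (ι × ℕ) ⊕ ι → Prop}

theorem Mv.tle (m : Mv I S A Q R) (x : ι) : (mv I A Q R).t x ≤ I.T + 1 := by
  rw [mv_t]
  split_ifs
  · exact le_rfl
  · exact m.ok.tle x

theorem Mv.hp (m : Mv I S A Q R) (x : ι) (hx : 0 < (mv I A Q R).t x) :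
    I.p x ∈ (mv I A Q R).own x ∧ I.lo (I.p x) = 0 ∧ 0 < I.t x := by
  have ht : 0 < I.t x := by
    by_cases hq : Q x
    · exact (Inst.mem_Z.1 (m.hQ x hq).1).1
    · rw [mv_t, if_neg hq] at hx
      exact hx
  obtain ⟨h1, h2⟩ := m.ok.hp x ht
  refine ⟨mem_mv.2 (Or.inl ⟨h1, fun d _ hc => ?_, fun hq => ?_⟩), h2, ht⟩
  · have := hc.1
    omega
  · obtain ⟨g, hg⟩ := m.hH x (m.hQ x hq).1
    exact ⟨g, hg, by omega⟩

/-- an arc of a row `j` outside `Q` which crosses a gap `g ≥ t j` stays -/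
theorem Mv.stay_of_late (m : Mv I S A Q R) {j : ι} (hj : ¬ Q j) {c : α} (hc : c ∈ I.own j) {g : ℕ}
    (h1 : I.lo c ≤ g) (h2 : g ≤ I.hi c) (ht : I.t j ≤ g) : Stay I A Q j c := by
  refine ⟨hc, fun d hd hC => ?_, fun hq => absurd hq hj⟩
  have hT := m.ok.leT j c hc
  obtain ⟨_, h3⟩ := Inst.mem_AP.1 (m.hA _ hd).1
  simp only at h3
  rcases h3 with h3 | ⟨g', h4, h5⟩
  · omega
  · have h6 := h5.2
    have h7 : ¬ g' ≤ I.lo c := fun h => h5.1 (hC.2 g' h4 h)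
    exact h5.1 ⟨c, hc, by omega, by omega⟩

theorem Mv.hr (m : Mv I S A Q R) (x : ι) (hx : (mv I A Q R).t x ≤ I.T) :
    I.r x ∈ (mv I A Q R).own x ∧ I.hi (I.r x) = I.T ∧ I.t x ≤ I.T := by
  have hq : ¬ Q x := by
    intro hq
    rw [mv_t, if_pos hq] at hx
    omega
  rw [mv_t, if_neg hq] at hx
  obtain ⟨h1, h2⟩ := m.ok.hr x hx
  have h3 := m.ok.le x _ h1
  exact ⟨mem_mv.2 (Or.inl (m.stay_of_late hq h1 (g := I.T) (by omega) (by omega) hx)), h2, hx⟩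

theorem Mv.Z_sub (m : Mv I S A Q R) : (mv I A Q R).Z ⊆ I.Z := by
  intro x hx
  obtain ⟨h1, h2⟩ := Inst.mem_Z.1 hx
  exact Inst.mem_Z.2 ⟨(m.hp x h1).2.2, (m.hr x h2).2.2⟩

/-- if `Q` is not empty then there are fewer rows with both roots -/
theorem Mv.card_Z (m : Mv I S A Q R) {z : ι} (hz : Q z) : (mv I A Q R).Z.card < I.Z.card := by
  apply Finset.card_lt_card
  rw [Finset.ssubset_iff_of_subset m.Z_sub]
  refine ⟨z, (m.hQ z hz).1, fun h => ?_⟩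
  have := (Inst.mem_Z.1 h).2
  rw [mv_t, if_pos hz, mv_T] at this
  omega

end Pool.Agent.Lib.MP_534936_co.Gen
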