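import Pool.Agent.Lib.MP_534936_co.Gen.MvFill
import Pool.Agent.Lib.MP_534936_co.Gen.MvRoot
import Pool.Agent.Lib.MP_534936_co.Gen.MvDisj

/-! The P-move gives a system. -/

set_option autoImplicit false

namespace Pool.Agent.Lib.MP_534936_co.Gen

open Finset

variable {ι α : Type} [Fintype ι] {I : Inst ι α} {S A : (ι × ℕ) → Prop} {Q : ι → Prop}
  {R : (ι × ℕ) → (ι × ℕ) ⊕ ι → Prop}

/-- an arc which stays and crosses `g` makes `g` busy -/
private theorem busy_of_stay {k : ι} {c : α} {g : ℕ} (hs : Stay I A Q k c) (h1 : I.lo c ≤ g)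
    (h2 : g ≤ I.hi c) : (mv I A Q R).Busy k g :=
  ⟨c, mem_mv.2 (Or.inl hs), h1, h2⟩

/-- an unfilled part of `j` after the last `H` gap of a row `i` of `Q` is impossible -/
private theorem caseQ (m : Mv I S A Q R) {i j : ι} (hD : I.D i j) {g : ℕ} (hg : g ≤ I.T) (hi : Q i)
    (hH : ∀ g', I.H i g' → g' < g)
    (hj : (∃ e, (j, e) ∈ I.ER ∧ I.InP j e g ∧ S (j, e)) ∨ ∀ k, k ≤ g → I.L j k) : False := by
  obtain ⟨hZ, hS⟩ := m.hQ i hi
  rcases hj with ⟨e, -, hP, hSe⟩ | hL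
  · refine hS (j, e) hSe (show ∀ g', I.H i g' → g' ≤ e from fun g' hg' => ?_)
    by_contra hcon
    have h3 : e < g' := not_le.1 hcon
    have h4 := hH g' hg'
    exact m.ok.star i j hD g' (by omega) hg' (hP.2.2 g' h3 (by omega))
  · obtain ⟨g0, hg0⟩ := m.hH i hZ
    have h4 := hH g0 hg0
    exact m.ok.star i j hD g0 (by omega) hg0 (hL g0 (by omega))

theorem Mv.star (m : Mv I S A Q R) (i j : ι) (hD : I.D i j) (g : ℕ) (hg : g ≤ I.T) (h1 : (mv I A Q R).H i g)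
    (h2 : (mv I A Q R).L j g) : False := by
  obtain ⟨hb1, ht1⟩ := h1
  obtain ⟨hb2, ht2⟩ := h2
  rw [mv_t] at ht1 ht2
  have hjQ : ¬ Q j := by
    intro hq
    rw [if_pos hq] at ht2
    omega
  rw [if_neg hjQ] at ht2
  have hLj : I.L j g := by
    refine ⟨fun hbj => ?_, ht2⟩
    obtain ⟨c, hc, h3, h4⟩ := hbj
    exact hb2 (busy_of_stay (m.stay_of_late hjQ hc h3 h4 ht2) h3 h4)
  have hj : (∃ e, (j, e) ∈ I.ER ∧ I.InP j e g ∧ S (j, e)) ∨ ∀ k, k ≤ g → I.L j k := by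
    rcases Inst.exists_run hg hLj with ⟨e, hE, hP⟩ | hL
    · refine Or.inl ⟨e, hE, hP, ?_⟩
      by_contra hS
      exact hb2 (m.fill hjQ hE hS hP)
    · exact Or.inr hL
  have hnH : ¬ I.H i g := fun hH => m.ok.star i j hD g hg hH hLj
  by_cases hbi : I.Busy i g
  · obtain ⟨c, hc, h3, h4⟩ := hbi
    have hns : ¬ Stay I A Q i c := fun hs => hb1 (busy_of_stay hs h3 h4)
    by_cases hA : ∃ d, A (i, d) ∧ I.InC i d (I.lo c)
    · obtain ⟨d, hAd, hC⟩ := hA
      obtain ⟨hAP, hS⟩ := m.hA (i, d) hAd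
      have hHd : I.H i d := (Inst.mem_EP.1 (Inst.mem_AP.1 hAP).1).2.1
      have hdg : d < g := lt_of_lt_of_le hC.1 h3
      rcases hj with ⟨e, -, hP, hSe⟩ | hL
      · have hde : d ≤ e := by
          by_contra hcon
          have h5 : e < d := not_le.1 hcon
          exact m.ok.star i j hD d (by omega) hHd (hP.2.2 d h5 (by omega))
        have h6 : e < g := hP.1
        refine hS (j, e) hSe (show I.D i j ∧ I.InC i d (e + 1) from ⟨hD, ?_⟩)
        exact (Inst.InC.extend hc hC h3 h4).mono (by omega) (by omega)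
      · exact m.ok.star i j hD d (by omega) hHd (hL d (by omega))
    · have hQi : Q i ∧ ∀ g', I.H i g' → ¬ I.lo c ≤ g' := by
        by_contra hcon
        apply hns
        refine ⟨hc, fun d hAd hC => hA ⟨d, hAd, hC⟩, fun hq => ?_⟩
        by_contra hno
        exact hcon ⟨hq, fun g' hg' hle => hno ⟨g', hg', hle⟩⟩
      refine caseQ m hD hg hQi.1 (fun g' hg' => ?_) hj
      have := hQi.2 g' hg'
      omega
  · have hti : I.t i ≤ g := by
      by_contra hcon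
      exact hnH ⟨hbi, not_le.1 hcon⟩
    have hQi : Q i := by
      by_contra hq
      rw [if_neg hq] at ht1
      omega
    refine caseQ m hD hg hQi (fun g' hg' => ?_) hj
    have := hg'.2
    omega

theorem Mv.ok' (m : Mv I S A Q R) : (mv I A Q R).Ok := by
  refine ⟨fun x a ha => ?_, fun x a ha => ?_, fun x y a hx hy => m.disj x y a hx hy, fun x => m.tle x,
    fun x hx => ?_, fun x hx => ?_, fun x z hD g hg h1 h2 => m.star x z hD g hg h1 h2⟩
  · obtain ⟨y, hy⟩ := m.old ha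
    exact m.ok.le y a hy
  · obtain ⟨y, hy⟩ := m.old ha
    exact m.ok.leT y a hy
  · obtain ⟨h1, h2, -⟩ := m.hp x hx
    exact ⟨h1, h2⟩
  · obtain ⟨h1, h2, -⟩ := m.hr x hx
    exact ⟨h1, h2⟩

theorem Mv.sol (m : Mv I S A Q R) (h : (mv I A Q R).Sol) : I.Sol := by
  obtain ⟨S', side, h1, h2, h3, h4, h5⟩ := h
  refine ⟨S', side, fun x a ha => ?_, h2, fun x hx => ?_, fun x hx => ?_, h5⟩
  · obtain ⟨y, hy⟩ := h1 x a ha
    exact m.old hy
  · obtain ⟨h6, h7, h8⟩ := h3 x hx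
    exact ⟨(m.hp x h6).2.2, h7, h8⟩
  · obtain ⟨h6, h7, h8⟩ := h4 x hx
    exact ⟨(m.hr x h6).2.2, h7, h8⟩

end Pool.Agent.Lib.MP_534936_co.Gen
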