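import Pool.Agent.Lib.MP_534936_co.Gen.Hall
import Pool.Agent.Lib.MP_534936_co.Gen.Final
import Pool.Agent.Lib.MP_534936_co.Gen.MvStar
import Pool.Agent.Lib.MP_534936_co.Gen.MvProg
import Pool.Agent.Lib.MP_534936_co.Gen.Mirror

/-! One step of the induction. -/

set_option autoImplicit false

namespace Pool.Agent.Lib.MP_534936_co.Gen

open Finset

variable {ι α : Type} [Fintype ι]

open Classical in
/-- the data of the P-move obtained from Hall -/
theorem Inst.exists_mv (I : Inst ι α) (h : I.Ok) (hH : ∀ z ∈ I.Z, ∃ g, I.H z g) :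
    ∃ (S : Finset (ι × ℕ)) (A : (ι × ℕ) → Prop) (Q : ι → Prop) (R : (ι × ℕ) → (ι × ℕ) ⊕ ι → Prop),
      Mv I (fun q => q ∈ S) A Q R ∧ S ⊆ I.ER ∧
      (∀ a ∈ I.AP, ¬ A a → ∃ q ∈ S, I.Adj (Sum.inl a) q) ∧
      (∀ z ∈ I.Z, ¬ Q z → ∃ q ∈ S, I.Adj (Sum.inr z) q) ∧
      (S = ∅ ∨ ∃ W : Finset ((ι × ℕ) ⊕ ι), (∀ a ∈ I.AP, (∃ q ∈ S, I.Adj (Sum.inl a) q) → Sum.inl a ∈ W) ∧
        (∀ z ∈ I.Z, (∃ q ∈ S, I.Adj (Sum.inr z) q) → Sum.inr z ∈ W) ∧ W.card < S.card) := by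
  obtain ⟨S, R, hSU, hS, hR1, hR2, hR4, hR5⟩ := hall_rel I.ER
    (fun q => (I.AP.image (fun a => (Sum.inl a : (ι × ℕ) ⊕ ι)) ∪
      I.Z.image (fun z => (Sum.inr z : (ι × ℕ) ⊕ ι))).filter (fun f => I.Adj f q))
  have hmem : ∀ (f : (ι × ℕ) ⊕ ι) (q : ι × ℕ), (f ∈ (I.AP.image (fun a => (Sum.inl a : (ι × ℕ) ⊕ ι)) ∪
      I.Z.image (fun z => (Sum.inr z : (ι × ℕ) ⊕ ι))).filter (fun f => I.Adj f q)) ↔
      (((∃ a ∈ I.AP, f = Sum.inl a) ∨ ∃ z ∈ I.Z, f = Sum.inr z) ∧ I.Adj f q) := by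
    intro f q
    simp only [mem_filter, mem_union, mem_image]
    constructor
    · rintro ⟨⟨a, h1, h2⟩ | ⟨z, h1, h2⟩, h3⟩
      · exact ⟨Or.inl ⟨a, h1, h2.symm⟩, h3⟩
      · exact ⟨Or.inr ⟨z, h1, h2.symm⟩, h3⟩
    · rintro ⟨⟨a, h1, h2⟩ | ⟨z, h1, h2⟩, h3⟩
      · exact ⟨Or.inl ⟨a, h1, h2.symm⟩, h3⟩
      · exact ⟨Or.inr ⟨z, h1, h2.symm⟩, h3⟩
  refine ⟨S, fun a => a ∈ I.AP ∧ ∀ q ∈ S, ¬ I.Adj (Sum.inl a) q,
    fun z => z ∈ I.Z ∧ ∀ q ∈ S, ¬ I.Adj (Sum.inr z) q, R, ?_, hSU, ?_, ?_, ?_⟩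
  · refine ⟨h, hH, fun a ha => ha, fun z hz => hz, fun q h1 h2 => hR1 q h1 h2, ?_, ?_, hR4, hR5⟩
    · intro q f hq
      obtain ⟨h1, h2, h3, -⟩ := hR2 q f hq
      exact ⟨h1, h2, ((hmem f q).1 h3).2⟩
    · intro q f hq
      obtain ⟨h1, h2, h3, h4⟩ := hR2 q f hq
      obtain ⟨h5, h6⟩ := (hmem f q).1 h3
      rcases h5 with ⟨a, ha, rfl⟩ | ⟨z, hz, rfl⟩
      · refine Or.inl ⟨a, rfl, ha, fun q' hq' hadj => h4 q' hq' ?_⟩
        exact (hmem _ q').2 ⟨Or.inl ⟨a, ha, rfl⟩, hadj⟩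
      · refine Or.inr ⟨z, rfl, hz, fun q' hq' hadj => h4 q' hq' ?_⟩
        exact (hmem _ q').2 ⟨Or.inr ⟨z, hz, rfl⟩, hadj⟩
  · intro a ha hA
    by_contra hcon
    exact hA ⟨ha, fun q hq hadj => hcon ⟨q, hq, hadj⟩⟩
  · intro z hz hQ
    by_contra hcon
    exact hQ ⟨hz, fun q hq hadj => hcon ⟨q, hq, hadj⟩⟩
  · rcases hS with hS | ⟨W, hW, hc⟩
    · exact Or.inl hS
    · refine Or.inr ⟨W, ?_, ?_, hc⟩
      · rintro a ha ⟨q, hq, hadj⟩
        exact (hW _).2 ⟨q, hq, (hmem _ q).2 ⟨Or.inl ⟨a, ha, rfl⟩, hadj⟩⟩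
      · rintro z hz ⟨q, hq, hadj⟩
        exact (hW _).2 ⟨q, hq, (hmem _ q).2 ⟨Or.inr ⟨z, hz, rfl⟩, hadj⟩⟩

/-- `I` is solved, or it reduces to a smaller system, or `|AP| < |AR|` -/
theorem Inst.pstep (I : Inst ι α) (h : I.Ok) (hH : ∀ z ∈ I.Z, ∃ g, I.H z g) :
    I.Sol ∨ (∃ J : Inst ι α, J.Ok ∧ (J.Sol → I.Sol) ∧
      (J.Z.card < I.Z.card ∨ (J.Z.card = I.Z.card ∧ J.comps < I.comps))) ∨ I.AP.card < I.AR.card := by
  classical
  obtain ⟨S, A, Q, R, m, hSU, hA, hQ, hS⟩ := I.exists_mv h hH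
  by_cases hq : ∃ z, Q z
  · obtain ⟨z, hz⟩ := hq
    exact Or.inr (Or.inl ⟨mv I A Q R, m.ok', m.sol, Or.inl (m.card_Z hz)⟩)
  have hq' : ∀ z, ¬ Q z := fun z hz => hq ⟨z, hz⟩
  by_cases ha : ∃ a, A a
  · obtain ⟨a, ha⟩ := ha
    have hle : (mv I A Q R).Z.card ≤ I.Z.card := card_le_card m.Z_sub
    refine Or.inr (Or.inl ⟨mv I A Q R, m.ok', m.sol, ?_⟩)
    rcases lt_or_eq_of_le hle with h1 | h1
    · exact Or.inl h1
    · exact Or.inr ⟨h1, m.comps_lt hq' ha⟩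
  have ha' : ∀ a, ¬ A a := fun a h1 => ha ⟨a, h1⟩
  have hSE : S = I.ER := by
    refine Finset.Subset.antisymm hSU ?_
    intro q hqE
    by_contra hqS
    obtain ⟨f, hf⟩ := m.hR1 q hqE hqS
    rcases m.hR3 q f hf with ⟨a, -, h1⟩ | ⟨z, -, h1⟩
    · exact ha' a h1
    · exact hq' z h1
  rcases hS with hS | ⟨W, h1, h2, h3⟩
  · left
    refine I.sol_of_final h (by rw [← hSE]; exact hS) ?_ ?_
    · rw [Finset.eq_empty_iff_forall_notMem]
      intro a haA
      obtain ⟨q, hqS, -⟩ := hA a haA (ha' a)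
      rw [hS] at hqS
      simp at hqS
    · rw [Finset.eq_empty_iff_forall_notMem]
      intro z hz
      obtain ⟨q, hqS, -⟩ := hQ z hz (hq' z)
      rw [hS] at hqS
      simp at hqS
  · right; right
    have h4 : I.AP.image (fun a => (Sum.inl a : (ι × ℕ) ⊕ ι)) ∪
        I.Z.image (fun z => (Sum.inr z : (ι × ℕ) ⊕ ι)) ⊆ W := by
      intro f hf
      rw [mem_union, mem_image, mem_image] at hf
      rcases hf with ⟨a, haA, rfl⟩ | ⟨z, hz, rfl⟩
      · exact h1 a haA (hA a haA (ha' a))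
      · exact h2 z hz (hQ z hz (hq' z))
    have h5 := card_le_card h4
    rw [card_union_of_disjoint, card_image_of_injective _ Sum.inl_injective,
      card_image_of_injective _ Sum.inr_injective] at h5
    · have h6 := Inst.card_ER h
      rw [hSE] at h3
      omega
    · rw [Finset.disjoint_left]
      intro f hf hf'
      rw [mem_image] at hf hf'
      obtain ⟨a, -, rfl⟩ := hf
      obtain ⟨z, -, h7⟩ := hf'
      cases h7

/-- a row with both roots and without `H` gap becomes a row of type R -/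
theorem Inst.normH (I : Inst ι α) (h : I.Ok) (z : ι) (hz : z ∈ I.Z) (hn : ∀ g, ¬ I.H z g) :
    ∃ J : Inst ι α, J.Ok ∧ (J.Sol → I.Sol) ∧ J.Z.card < I.Z.card := by
  classical
  have hzz := Inst.mem_Z.1 hz
  have ht1 : ∀ x, x ≠ z → Function.update I.t z 0 x = I.t x := fun x hx => Function.update_of_ne hx _ _
  have ht2 : Function.update I.t z 0 z = 0 := Function.update_self _ _ _
  refine ⟨{ I with t := Function.update I.t z 0 }, ⟨h.le, h.leT, h.disj, ?_, ?_, ?_, ?_⟩, ?_, ?_⟩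
  · intro x
    by_cases hx : x = z
    · subst hx
      simp only [ht2]
      exact Nat.zero_le _
    · simp only [ht1 x hx]
      exact h.tle x
  · intro x hx0
    by_cases hx : x = z
    · subst hx
      simp only [ht2] at hx0
      exact absurd hx0 (lt_irrefl _)
    · simp only [ht1 x hx] at hx0
      exact h.hp x hx0
  · intro x hx0
    by_cases hx : x = z
    · subst hx
      exact h.hr x hzz.2
    · simp only [ht1 x hx] at hx0
      exact h.hr x hx0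
  · intro x w hD g hg h1 h2
    have hx : x ≠ z := by
      rintro rfl
      have := h1.2
      simp only [ht2] at this
      exact absurd this (Nat.not_lt_zero _)
    have h1' : I.H x g := by
      refine ⟨h1.1, ?_⟩
      have := h1.2
      simp only [ht1 x hx] at this
      exact this
    have h2' : I.L w g := by
      refine ⟨h2.1, ?_⟩
      by_cases hw : w = z
      · subst hw
        by_contra hcon
        exact hn g ⟨h2.1, by omega⟩
      · have := h2.2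
        simp only [ht1 w hw] at this
        exact this
    exact h.star x w hD g hg h1' h2'
  · rintro ⟨S, side, h1, h2, h3, h4, h5⟩
    refine ⟨S, side, h1, h2, ?_, ?_, h5⟩
    · intro x hx
      obtain ⟨h6, h7⟩ := h3 x hx
      refine ⟨?_, h7⟩
      by_cases hxz : x = z
      · subst hxz
        exact hzz.1
      · simp only [ht1 x hxz] at h6
        exact h6
    · intro x hx
      obtain ⟨h6, h7⟩ := h4 x hx
      refine ⟨?_, h7⟩
      by_cases hxz : x = z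
      · subst hxz
        exact hzz.2
      · simp only [ht1 x hxz] at h6
        exact h6
  · apply card_lt_card
    rw [Finset.ssubset_iff_of_subset]
    · refine ⟨z, hz, ?_⟩
      intro hcon
      have := (Inst.mem_Z.1 hcon).1
      simp only [ht2] at this
      exact absurd this (lt_irrefl _)
    · intro x hx
      have hx' := Inst.mem_Z.1 hx
      by_cases hxz : x = z
      · rw [hxz]; exact hz
      · simp only [ht1 x hxz] at hx'
        exact Inst.mem_Z.2 hx'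

end Pool.Agent.Lib.MP_534936_co.Gen
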